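import Pool.Agent.TH711.ES.Lur

/-!
# Linearly independent exponential maps and their group algebras
-/

open IntermediateField

namespace Pool.Agent.TH711.ES

variable {F M G : Type*} [Field F] [Field M] [Algebra F M] [AddCommGroup G]

/-- `m` is a homomorphism from the additive group `G` to the multiplicative group of `M`, with
values linearly independent over `F`. -/
structure IsExp (F : Type*) {M G : Type*} [Field F] [Field M] [Algebra F M] [AddCommGroup G]
    (m : G → M) : Prop where
  zero : m 0 = 1
  add : ∀ a b, m (a + b) = m a * m b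
  li : LinearIndependent F m

namespace IsExp

variable {m : G → M} (hm : IsExp F m)

include hm

lemma ne_zero (a : G) : m a ≠ 0 := by
  intro h
  have h1 := hm.add a (-a)
  rw [add_neg_cancel, hm.zero, h, zero_mul] at h1
  exact one_ne_zero h1

lemma neg (a : G) : m (-a) = (m a)⁻¹ := by
  have h1 := hm.add a (-a)
  rw [add_neg_cancel, hm.zero] at h1
  exact (eq_inv_of_mul_eq_one_right h1.symm)

lemma nsmul (k : ℕ) (a : G) : m (k • a) = m a ^ k := by
  induction k with
  | zero => rw [zero_smul, hm.zero, pow_zero]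
  | succ k ih => rw [succ_nsmul, hm.add, ih, pow_succ]

lemma inj : Function.Injective m := hm.li.injective

/-- The multiplicative homomorphism. -/
def hom : Multiplicative G →* M where
  toFun a := m a.toAdd
  map_one' := hm.zero
  map_mul' a b := hm.add a.toAdd b.toAdd

/-- The homomorphism from the group algebra. -/
noncomputable def ev : AddMonoidAlgebra F G →ₐ[F] M := AddMonoidAlgebra.lift F M G hm.hom

lemma ev_single (a : G) (c : F) : hm.ev (AddMonoidAlgebra.single a c) = algebraMap F M c * m a := by
  rw [ev, AddMonoidAlgebra.lift_single, Algebra.smul_def]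
  rfl

lemma ev_apply (x : AddMonoidAlgebra F G) : hm.ev x = Finsupp.linearCombination F m x.coeff := by
  rw [ev, AddMonoidAlgebra.lift_apply, Finsupp.linearCombination_apply]
  rfl

lemma ev_injective : Function.Injective hm.ev := by
  intro x y hxy
  rw [hm.ev_apply, hm.ev_apply] at hxy
  have := hm.li hxy
  exact AddMonoidAlgebra.ext this

/-- The algebra spanned by the values. -/
noncomputable def ring : Subalgebra F M := hm.ev.range

lemma mem_ring (a : G) : m a ∈ hm.ring :=
  ⟨AddMonoidAlgebra.single a 1, by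
    change hm.ev _ = _
    rw [hm.ev_single, map_one, one_mul]⟩

lemma comp {G' : Type*} [AddCommGroup G'] (γ : G' →+ G) (hγ : Function.Injective γ) :
    IsExp F (fun a => m (γ a)) where
  zero := by rw [map_zero, hm.zero]
  add a b := by rw [map_add, hm.add]
  li := hm.li.comp γ hγ

/-- The relation with the ring of a subgroup. -/
lemma mem_ring_comp {G' : Type*} [AddCommGroup G'] (γ : G' →+ G) (hγ : Function.Injective γ)
    {x : AddMonoidAlgebra F G} (hx : ∀ a ∈ x.coeff.support, a ∈ Set.range γ) :
    hm.ev x ∈ (hm.comp γ hγ).ring := by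
  rw [hm.ev_apply, Finsupp.linearCombination_apply, Finsupp.sum]
  apply Subalgebra.sum_mem
  intro a ha
  obtain ⟨b, rfl⟩ := hx a ha
  exact Subalgebra.smul_mem _ ((hm.comp γ hγ).mem_ring b) _

lemma ring_comp_le {G' : Type*} [AddCommGroup G'] (γ : G' →+ G) (hγ : Function.Injective γ) :
    (hm.comp γ hγ).ring ≤ hm.ring := by
  rintro _ ⟨x, rfl⟩
  change (hm.comp γ hγ).ev x ∈ _
  rw [(hm.comp γ hγ).ev_apply, Finsupp.linearCombination_apply, Finsupp.sum]
  apply Subalgebra.sum_mem
  intro a _
  exact Subalgebra.smul_mem _ (hm.mem_ring _) _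

omit hm in
omit [Field M] [Algebra F M] in
/-- Units are monomials. -/
theorem _root_.Pool.Agent.TH711.ES.unit_monomial [TwoUniqueSums G] {x y : AddMonoidAlgebra F G} (hxy : x * y = 1) :
    ∃ a c, x = AddMonoidAlgebra.single a c := by
  classical
  have hx : x ≠ 0 := by rintro rfl; rw [zero_mul] at hxy; exact zero_ne_one hxy
  have hy : y ≠ 0 := by rintro rfl; rw [mul_zero] at hxy; exact zero_ne_one hxy
  have hx' : x.coeff.support.Nonempty := by
    rw [Finsupp.support_nonempty_iff, Ne, AddMonoidAlgebra.coeff_eq_zero]; exact hx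
  have hy' : y.coeff.support.Nonempty := by
    rw [Finsupp.support_nonempty_iff, Ne, AddMonoidAlgebra.coeff_eq_zero]; exact hy
  have hcoef : ∀ a ∈ x.coeff.support, ∀ b ∈ y.coeff.support,
      UniqueAdd x.coeff.support y.coeff.support a b → a + b = 0 := by
    intro a ha b hb hu
    have h1 := AddMonoidAlgebra.coeff_mul_add_of_uniqueAdd hu
    rw [hxy, AddMonoidAlgebra.one_def, AddMonoidAlgebra.coeff_single] at h1
    by_contra h0
    rw [Finsupp.single_apply, if_neg (fun h => h0 h.symm)] at h1
    rw [Finsupp.mem_support_iff] at ha hb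
    exact mul_ne_zero ha hb h1.symm
  have hcard : x.coeff.support.card = 1 := by
    by_contra h1
    have hx1 : 0 < x.coeff.support.card := hx'.card_pos
    have hy1 : 0 < y.coeff.support.card := hy'.card_pos
    have h2 : 1 < x.coeff.support.card * y.coeff.support.card := by
      have : 2 ≤ x.coeff.support.card := by omega
      nlinarith
    obtain ⟨p, hp, q, hq, hpq, hup, huq⟩ := TwoUniqueSums.uniqueAdd_of_one_lt_card h2
    rw [Finset.mem_product] at hp hq
    have e1 := hcoef _ hp.1 _ hp.2 hup
    have e2 := hcoef _ hq.1 _ hq.2 huq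
    have e3 := huq hp.1 hp.2 (e1.trans e2.symm)
    exact hpq (Prod.ext e3.1 e3.2)
  obtain ⟨a, c, hac, h⟩ := Finsupp.card_support_eq_one'.1 hcard
  refine ⟨a, c, AddMonoidAlgebra.ext ?_⟩
  rw [h]; rfl

lemma unit_mem [TwoUniqueSums G] {z : M} (hz : z ∈ hm.ring) (hz' : z⁻¹ ∈ hm.ring) (h0 : z ≠ 0) :
    ∃ (c : F) (a : G), z = algebraMap F M c * m a := by
  obtain ⟨x, hx⟩ := hz
  obtain ⟨y, hy⟩ := hz'
  change hm.ev x = z at hx
  change hm.ev y = z⁻¹ at hy
  have hxy : x * y = 1 := by
    apply hm.ev_injective
    rw [map_mul, map_one, hx, hy, mul_inv_cancel₀ h0]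
  obtain ⟨a, c, rfl⟩ := unit_monomial hxy
  exact ⟨c, a, by rw [← hx, hm.ev_single]⟩

lemma lin (α β : G) (c q : F) (hα : α ≠ 0) (hq : q ≠ 0) :
    m α - algebraMap F M q ≠ algebraMap F M c * m β := by
  classical
  intro h
  have h1 : AddMonoidAlgebra.single α (1 : F) - AddMonoidAlgebra.single 0 q =
      AddMonoidAlgebra.single β c := by
    apply hm.ev_injective
    rw [map_sub, hm.ev_single, hm.ev_single, hm.ev_single, map_one, one_mul, hm.zero, mul_one, h]
  by_cases hβ : β = 0
  · subst hβ
    have h2 := congrArg (fun x => x.coeff α) h1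
    simp only [AddMonoidAlgebra.coeff_sub, AddMonoidAlgebra.coeff_single, Finsupp.coe_sub,
      Pi.sub_apply, Finsupp.single_apply] at h2
    rw [if_pos trivial, if_neg (Ne.symm hα), if_neg (Ne.symm hα), sub_zero] at h2
    exact one_ne_zero h2
  · have h2 := congrArg (fun x => x.coeff 0) h1
    simp only [AddMonoidAlgebra.coeff_sub, AddMonoidAlgebra.coeff_single, Finsupp.coe_sub,
      Pi.sub_apply, Finsupp.single_apply] at h2
    rw [if_neg hα, if_pos trivial, if_neg hβ, zero_sub, neg_eq_zero] at h2
    exact hq h2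

end IsExp

end Pool.Agent.TH711.ES
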