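import Pool.Agent.TH711.ES.Main2

/-!
# Rational functions of a transcendental element which are exponential sums
-/

open IntermediateField Polynomial

namespace Pool.Agent.TH711.ES

variable {F M G : Type*} [Field F] [IsAlgClosed F] [Field M] [Algebra F M] [AddCommGroup G]
  [Module ℚ G]

variable {m : G → M} (hm : IsExp F m)

/-- **Integrally closed subalgebras of `F(t)`.** -/
theorem rational_structure {t : M} (ht : Transcendental F t) (B : Subalgebra F M)
    (hB : ∀ z ∈ B, z ∈ F⟮t⟯) (hBn : ∀ w ∈ F⟮t⟯, IsIntegral B w → w ∈ B) {f : M}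
    (hf : f ∈ hm.ring) (hfB : f ∈ B) (hfF : f ∉ (algebraMap F M).range) :
    (∃ s ∈ hm.ring ⊓ B, Transcendental F s ∧ hm.ring ⊓ B = Algebra.adjoin F {s}) ∨
    ∃ α, α ≠ 0 ∧ m α ∈ B ∧ (m α)⁻¹ ∈ B ∧ hm.ring ⊓ B = Algebra.adjoin F {m α, (m α)⁻¹} := by
  set A := hm.ring ⊓ B with hA
  have hfA : f ∈ A := ⟨hf, hfB⟩
  set K := IntermediateField.adjoin F (A : Set M) with hK
  have hKt : K ≤ F⟮t⟯ := by
    rw [hK, IntermediateField.adjoin_le_iff]
    intro z hz
    exact hB z hz.2
  obtain ⟨s, hs, hKs⟩ := luroth_of_embedding K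
    ((RatFunc.algEquivOfTranscendental t ht).symm.toAlgHom.comp (IntermediateField.inclusion hKt))
    (IntermediateField.subset_adjoin F _ hfA) hfF
  have hN : ∀ w ∈ IntermediateField.adjoin F (A : Set M), IsIntegral A w → w ∈ A := by
    intro w hw hint
    refine ⟨?_, hBn w (hKt hw) (isIntegral_of_le inf_le_right hint)⟩
    obtain ⟨a, ha, b, hb, rfl⟩ := mem_adjoin_div hw
    by_cases hb0 : b = 0
    · rw [hb0, div_zero]; exact Subalgebra.zero_mem _
    · exact normal hm ha.1 hb.1 hb0 (div_mul_cancel₀ _ hb0) (isIntegral_of_le inf_le_left hint)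
  rcases structure_of_genus_zero hs hKs hN hfA hfF m hm.zero
    (fun z hz hz0 hzi => hm.unit_mem hz.1 hzi.1 hz0)
    (fun α β c q hα hq => hm.lin α β c q hα hq) with h | ⟨β, h1, h2, h4, h3⟩
  · exact Or.inl h
  · exact Or.inr ⟨β, h1, h2.2, h4.2, h3⟩

omit [IsAlgClosed F] in
/-- The polynomials in `t` are integrally closed. -/
theorem mem_adjoin_of_isIntegral {t : M} (ht : Transcendental F t) {B : Subalgebra F M}
    (hB : B = Algebra.adjoin F {t}) {w : M} (hw : w ∈ F⟮t⟯) (hint : IsIntegral B w) : w ∈ B := by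
  set e := RatFunc.algEquivOfTranscendental t ht with he
  set x₀ : RatFunc F := e.symm ⟨w, hw⟩ with hx₀
  have hex : ((e x₀ : F⟮t⟯) : M) = w := by rw [hx₀, AlgEquiv.apply_symm_apply]
  have hea : ∀ P : F[X], ((e (algebraMap F[X] (RatFunc F) P) : F⟮t⟯) : M) = aeval t P := by
    intro P
    rw [he, RatFunc.algEquivOfTranscendental_algebraMap]
    exact (aeval_algHom_apply (F⟮t⟯).val (AdjoinSimple.gen F t) P).symm
  have hmem : ∀ z ∈ B, ∃ P : F[X], aeval t P = z := by
    intro z hz
    rw [hB, Algebra.adjoin_singleton_eq_range_aeval] at hz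
    exact hz
  obtain ⟨H, hH, hHw⟩ := hint
  have hlift : H.map (algebraMap B M) ∈
      Polynomial.lifts (aeval t : F[X] →ₐ[F] M).toRingHom := by
    rw [Polynomial.lifts_iff_coeff_lifts]
    intro i
    rw [coeff_map]
    exact hmem _ (H.coeff i).2
  obtain ⟨q, hq, -, hqm⟩ := Polynomial.lifts_and_natDegree_eq_and_monic hlift (hH.map _)
  have hxint : IsIntegral F[X] x₀ := by
    refine ⟨q, hqm, ?_⟩
    apply e.injective
    apply Subtype.val_injective
    have h2 : ((F⟮t⟯).val : F⟮t⟯ →+* M) (e.toRingHom (eval₂ (algebraMap F[X] (RatFunc F)) x₀ q)) =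
        eval₂ (aeval t : F[X] →ₐ[F] M).toRingHom w q := by
      rw [Polynomial.hom_eval₂, Polynomial.hom_eval₂]
      congr 1
      refine RingHom.ext fun P => ?_
      exact hea P
    rw [map_zero]
    refine h2.trans ?_
    rw [← Polynomial.eval_map, hq, Polynomial.eval_map]
    exact hHw
  obtain ⟨s, hs⟩ := IsIntegrallyClosed.isIntegral_iff.1 hxint
  rw [hB, Algebra.adjoin_singleton_eq_range_aeval]
  refine ⟨s, ?_⟩
  change aeval t s = w
  rw [← hea, hs, hex]

include hm in
/-- **The polynomials in `t` which are exponential sums.** -/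
theorem poly_structure {t : M} (ht : Transcendental F t) :
    ∃ h : F[X], ∀ P : F[X], aeval t P ∈ hm.ring ↔ ∃ Q : F[X], P = Q.comp h := by
  by_cases hall : ∀ f ∈ hm.ring, f ∈ Algebra.adjoin F {t} → f ∈ (algebraMap F M).range
  · refine ⟨0, fun P => ⟨fun hP => ?_, ?_⟩⟩
    · have h1 : aeval t P ∈ Algebra.adjoin F {t} := by
        rw [Algebra.adjoin_singleton_eq_range_aeval]; exact ⟨P, rfl⟩
      obtain ⟨c, hc⟩ := hall _ hP h1
      refine ⟨C c, ?_⟩
      rw [C_comp]
      apply transcendental_iff_injective.1 ht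
      rw [aeval_C, hc]
    · rintro ⟨Q, rfl⟩
      rw [comp_zero, aeval_C]
      exact Subalgebra.algebraMap_mem _ _
  · push Not at hall
    obtain ⟨f, hf, hft, hfF⟩ := hall
    have hBt : ∀ z ∈ Algebra.adjoin F {t}, z ∈ F⟮t⟯ := fun z hz =>
      IntermediateField.algebra_adjoin_le_adjoin F _ hz
    rcases rational_structure hm ht (Algebra.adjoin F {t}) hBt
      (fun w hw hint => mem_adjoin_of_isIntegral ht rfl hw hint) hf hft hfF with
      ⟨s, hs, hst, h⟩ | ⟨α, hα, h1, h2, -⟩
    · have hs2 := hs.2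
      rw [SetLike.mem_coe, Algebra.adjoin_singleton_eq_range_aeval] at hs2
      obtain ⟨g, hg⟩ := hs2
      change aeval t g = s at hg
      refine ⟨g, fun P => ⟨fun hP => ?_, ?_⟩⟩
      · have h1 : aeval t P ∈ hm.ring ⊓ Algebra.adjoin F {t} := ⟨hP, by
          rw [SetLike.mem_coe, Algebra.adjoin_singleton_eq_range_aeval]; exact ⟨P, rfl⟩⟩
        rw [h, Algebra.adjoin_singleton_eq_range_aeval] at h1
        obtain ⟨Q, hQ⟩ := h1
        change aeval s Q = _ at hQ
        refine ⟨Q, ?_⟩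
        apply transcendental_iff_injective.1 ht
        rw [← hQ, aeval_comp, hg]
      · rintro ⟨Q, rfl⟩
        rw [aeval_comp, hg]
        have h1 : aeval s Q ∈ hm.ring ⊓ Algebra.adjoin F {t} := by
          rw [h, Algebra.adjoin_singleton_eq_range_aeval]; exact ⟨Q, rfl⟩
        exact h1.1
    · exact absurd (not_unit hm ht h1 h2) hα

end Pool.Agent.TH711.ES
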