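import Pool.Agent.TH711.ES.Main3
import Pool.Agent.TH711.ES.Rat
import Pool.Agent.H340R2.LW

/-!
# Exponential sums in the complex numbers
-/

open IntermediateField Polynomial

namespace Pool.Agent.TH711.ES

/-- The field of algebraic numbers. -/
noncomputable abbrev Qb : IntermediateField ℚ ℂ := algebraicClosure ℚ ℂ

instance instAlgClosedQb : IsAlgClosed Qb := (algebraicClosure.isAlgClosure (F := ℚ) (E := ℂ)).isAlgClosed

lemma mem_Qb {z : ℂ} : z ∈ Qb ↔ IsAlgebraic ℚ z := mem_algebraicClosure_iff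

/-- The exponential function on the algebraic numbers (Lindemann-Weierstrass). -/
lemma isExp_exp : IsExp Qb (fun α : Qb => Complex.exp (α : ℂ)) where
  zero := by
    change Complex.exp ((0 : Qb) : ℂ) = 1
    rw [ZeroMemClass.coe_zero, Complex.exp_zero]
  add a b := by
    change Complex.exp ((a + b : Qb) : ℂ) = _
    rw [AddMemClass.coe_add, Complex.exp_add]
  li := by
    rw [linearIndependent_iff']
    intro s g hg i hi
    have h1 := Pool.Agent.H340R2.LW.lindemann_weierstrass s (fun α : Qb => (α : ℂ))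
      (fun α : Qb => (g α : ℂ)) (fun α _ => mem_Qb.1 α.2) (fun α _ => mem_Qb.1 (g α).2)
      (fun a _ b _ hab => Subtype.ext hab) (by
        rw [← hg]
        apply Finset.sum_congr rfl
        intro α _
        rw [Algebra.smul_def]
        rfl) i hi
    exact Subtype.ext h1

lemma isAlgebraic_mono {R S : Type*} [CommRing R] [CommRing S] [Algebra R ℂ] [Algebra S ℂ]
    (hR : Function.Injective (algebraMap R ℂ)) (h : ∀ r : R, ∃ s : S, algebraMap S ℂ s = algebraMap R ℂ r)
    {z : ℂ} (hz : IsAlgebraic R z) : IsAlgebraic S z := by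
  obtain ⟨p, hp, hpz⟩ := hz
  have hl : p.map (algebraMap R ℂ) ∈ Polynomial.lifts (algebraMap S ℂ) := by
    rw [Polynomial.lifts_iff_coeff_lifts]
    intro i
    rw [coeff_map]
    exact h _
  obtain ⟨q, hq⟩ := (Polynomial.mem_lifts _).1 hl
  refine ⟨q, ?_, ?_⟩
  · rintro rfl
    rw [Polynomial.map_zero] at hq
    exact hp ((Polynomial.map_eq_zero_iff hR).1 hq.symm)
  · rw [aeval_def, ← eval_map, hq, eval_map, ← aeval_def, hpz]

/-- The numbers algebraic over `ℚ(t)`. -/
noncomputable def NN (t : ℂ) : IntermediateField Qb ℂ where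
  toSubalgebra :=
    { (algebraicClosure ℚ⟮t⟯ ℂ).toSubalgebra.toSubsemiring with
      algebraMap_mem' := fun r => by
        change algebraMap Qb ℂ r ∈ algebraicClosure ℚ⟮t⟯ ℂ
        rw [mem_algebraicClosure_iff]
        exact (mem_Qb.1 r.2).tower_top _ }
  inv_mem' := fun x hx => by
    change x ∈ algebraicClosure ℚ⟮t⟯ ℂ at hx
    exact (algebraicClosure ℚ⟮t⟯ ℂ).inv_mem hx

lemma mem_NN {t z : ℂ} : z ∈ NN t ↔ IsAlgebraic ℚ⟮t⟯ z := by
  rw [← mem_algebraicClosure_iff]
  rfl

lemma NN_closed {t : ℂ} : ∀ z : ℂ, IsAlgebraic (NN t) z → z ∈ NN t := by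
  intro z hz
  rw [mem_NN]
  have h1 : IsAlgebraic (algebraicClosure ℚ⟮t⟯ ℂ) z := by
    refine isAlgebraic_mono (R := NN t) (FaithfulSMul.algebraMap_injective _ _) ?_ hz
    intro r
    exact ⟨⟨(r : ℂ), r.2⟩, rfl⟩
  exact h1.restrictScalars _

/-- The exchange property. -/
lemma exchange {t f z : ℂ} (hf : IsAlgebraic (Algebra.adjoin ℚ {t}) f) (hfF : Transcendental ℚ f)
    (hz : IsAlgebraic (Algebra.adjoin ℚ {t}) z) : IsAlgebraic (Algebra.adjoin ℚ {f}) z := by
  have key : ∀ (s : Set ℂ) (w : ℂ), w ∈ (AlgebraicIndependent.matroid ℚ ℂ).closure s ↔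
      IsAlgebraic (Algebra.adjoin ℚ s) w := by
    intro s w
    rw [AlgebraicIndependent.matroid_closure_eq]
    exact Subalgebra.mem_algebraicClosure _ _
  have h0 : f ∉ (AlgebraicIndependent.matroid ℚ ℂ).closure ∅ := by
    rw [key]
    intro h
    apply hfF
    refine isAlgebraic_mono (FaithfulSMul.algebraMap_injective _ _) ?_ h
    rintro ⟨r, hr⟩
    rw [Algebra.adjoin_empty] at hr
    obtain ⟨q, hq⟩ := Algebra.mem_bot.1 hr
    exact ⟨q, hq⟩
  have h1 : f ∈ (AlgebraicIndependent.matroid ℚ ℂ).closure (insert t ∅) \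
      (AlgebraicIndependent.matroid ℚ ℂ).closure ∅ := by
    refine ⟨?_, h0⟩
    rw [insert_empty_eq]
    exact (key _ _).2 hf
  have h2 := Matroid.closure_exchange h1
  have h3 : t ∈ (AlgebraicIndependent.matroid ℚ ℂ).closure {f} := by
    have h3 := h2.1
    rwa [insert_empty_eq] at h3
  have h4 : z ∈ (AlgebraicIndependent.matroid ℚ ℂ).closure {t} := (key _ _).2 hz
  rw [← key]
  exact (Matroid.closure_subset_closure_of_subset_closure (Set.singleton_subset_iff.2 h3)) h4

end Pool.Agent.TH711.ES
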