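import Pool.Agent.TH711.ES.Cx

/-!
# The structure of exponential sums algebraic over `ℚ(t)`
-/

open IntermediateField Polynomial

namespace Pool.Agent.TH711.ES

lemma mem_range_Qb {z : ℂ} : z ∈ (algebraMap Qb ℂ).range ↔ IsAlgebraic ℚ z := by
  constructor
  · rintro ⟨c, rfl⟩
    exact mem_Qb.1 c.2
  · intro h
    exact ⟨⟨z, mem_Qb.2 h⟩, rfl⟩

open scoped IntermediateField.algebraAdjoinAdjoin in
lemma isAlgebraic_field_iff {t z : ℂ} :
    IsAlgebraic ℚ⟮t⟯ z ↔ IsAlgebraic (Algebra.adjoin ℚ {t}) z :=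
  (IsFractionRing.isAlgebraic_iff (Algebra.adjoin ℚ {t}) ℚ⟮t⟯ ℂ (x := z)).symm

lemma NN_tr {t : ℂ} : ∀ f ∈ NN t, f ∉ (algebraMap Qb ℂ).range → ∀ z ∈ NN t,
    IsAlgebraic (Algebra.adjoin Qb {f}) z := by
  intro f hf hfF z hz
  rw [mem_range_Qb] at hfF
  rw [mem_NN, isAlgebraic_field_iff] at hf hz
  have h1 := exchange hf hfF hz
  refine isAlgebraic_mono (FaithfulSMul.algebraMap_injective _ _) ?_ h1
  rintro ⟨r, hr⟩
  refine ⟨⟨r, ?_⟩, rfl⟩
  have h2 : Algebra.adjoin ℚ {f} ≤ (Algebra.adjoin Qb {f}).restrictScalars ℚ :=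
    Algebra.adjoin_le (by
      rintro _ rfl
      exact Algebra.subset_adjoin rfl)
  exact h2 hr

/-- The value of an exponential sum with algebraic exponents and coefficients. -/
noncomputable def expSum (c : Qb →₀ Qb) : ℂ := c.sum (fun α b => (b : ℂ) * Complex.exp (α : ℂ))

lemma expSum_eq (x : AddMonoidAlgebra Qb Qb) : expSum x.coeff = isExp_exp.ev x := by
  rw [isExp_exp.ev_apply, Finsupp.linearCombination_apply]
  rfl

lemma mem_ring_iff {z : ℂ} : z ∈ (isExp_exp).ring ↔ ∃ c, expSum c = z := by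
  constructor
  · rintro ⟨x, hx⟩
    exact ⟨x.coeff, by rw [expSum_eq]; exact hx⟩
  · rintro ⟨c, hc⟩
    exact ⟨AddMonoidAlgebra.ofCoeff c, by
      change isExp_exp.ev _ = z
      rw [← expSum_eq, ← hc]⟩

lemma transcendental_iff {z : ℂ} : Transcendental Qb z ↔ Transcendental ℚ z := by
  rw [Transcendental, Transcendental, not_iff_not]
  constructor
  · intro h
    have hi : Algebra.IsAlgebraic ℚ Qb := algebraicClosure.isAlgebraic ℚ ℂ
    exact h.restrictScalars ℚ
  · intro h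
    exact h.tower_top _

/-- **The trichotomy.** -/
theorem trichotomy (t : ℂ) :
    (∀ z, ((∃ c, expSum c = z) ∧ IsAlgebraic ℚ⟮t⟯ z) ↔ IsAlgebraic ℚ z) ∨
    (∃ α : ℂ, IsAlgebraic ℚ α ∧ α ≠ 0 ∧ ∀ z, ((∃ c, expSum c = z) ∧ IsAlgebraic ℚ⟮t⟯ z) ↔
      z ∈ Submodule.span Qb (Set.range fun q : ℚ => Complex.exp (q * α))) ∨
    ∃ g : Qb →₀ Qb, Transcendental ℚ (expSum g) ∧
      (∀ z, ((∃ c, expSum c = z) ∧ IsAlgebraic ℚ⟮t⟯ z) ↔ ∃ P : Qb[X], aeval (expSum g) P = z) ∧
      ∀ (c : Qb →₀ Qb) (P : Qb[X]), aeval (expSum g) P = expSum c → 0 < P.natDegree →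
        P.natDegree < c.support.card := by
  by_cases hall : ∀ z, (∃ c, expSum c = z) → IsAlgebraic ℚ⟮t⟯ z → IsAlgebraic ℚ z
  · left
    intro z
    refine ⟨fun h => hall z h.1 h.2, fun h => ⟨?_, h.tower_top _⟩⟩
    rw [← mem_ring_iff]
    exact Subalgebra.algebraMap_mem _ (⟨z, mem_Qb.2 h⟩ : Qb)
  right
  push Not at hall
  obtain ⟨z₀, ⟨c₀, hc₀⟩, hz₀, hz₀'⟩ := hall
  set x₀ : AddMonoidAlgebra Qb Qb := AddMonoidAlgebra.ofCoeff c₀ with hx₀
  have hev₀ : isExp_exp.ev x₀ = z₀ := by rw [← expSum_eq, ← hc₀]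
  have hxN : isExp_exp.ev x₀ ∈ NN t := by rw [hev₀, mem_NN]; exact hz₀
  have hxF : isExp_exp.ev x₀ ∉ (algebraMap Qb ℂ).range := by
    rw [hev₀, mem_range_Qb]; exact hz₀'
  by_cases hex : ∃ α : Qb, α ≠ 0 ∧ Complex.exp (α : ℂ) ∈ NN t
  · left
    obtain ⟨α, hα, hαN⟩ := hex
    refine ⟨(α : ℂ), mem_Qb.1 α.2, fun h => hα (Subtype.ext h), fun z => ?_⟩
    constructor
    · rintro ⟨⟨c, rfl⟩, hz⟩
      have h1 := case_line isExp_exp (NN t) NN_tr hα hαN (x := AddMonoidAlgebra.ofCoeff c) (by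
        rw [← expSum_eq, mem_NN]; exact hz)
      rw [expSum, Finsupp.sum]
      apply Submodule.sum_mem
      intro a ha
      obtain ⟨q, hq⟩ := h1 a (Finsupp.mem_support_iff.1 ha)
      have h2 : ((a : Qb) : ℂ) = q * (α : ℂ) := by
        rw [hq, Rat.smul_def]
        push_cast
        rfl
      rw [h2]
      have h3 : ((c a : Qb) : ℂ) * Complex.exp (q * (α : ℂ)) =
          (c a) • Complex.exp (q * (α : ℂ)) := by
        rw [Algebra.smul_def]; rfl
      rw [h3]
      exact Submodule.smul_mem _ _ (Submodule.subset_span ⟨q, rfl⟩)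
    · intro hz
      have h1 : ∀ q : ℚ, Complex.exp (q * (α : ℂ)) = Complex.exp ((q • α : Qb) : ℂ) := by
        intro q
        rw [Rat.smul_def]
        push_cast
        rfl
      have h2 : Submodule.span Qb (Set.range fun q : ℚ => Complex.exp (q * (α : ℂ))) ≤
          Subalgebra.toSubmodule ((isExp_exp).ring ⊓ (NN t).toSubalgebra) := by
        rw [Submodule.span_le]
        rintro _ ⟨q, rfl⟩
        change Complex.exp (q * (α : ℂ)) ∈ (isExp_exp).ring ⊓ (NN t).toSubalgebra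
        rw [h1]
        exact ⟨isExp_exp.mem_ring _, rat_smul_mem isExp_exp (NN t) NN_closed hαN q⟩
      have h3 := h2 hz
      exact ⟨mem_ring_iff.1 h3.1, mem_NN.1 h3.2⟩
  · right
    push Not at hex
    have hno : ∀ α : Qb, Complex.exp (α : ℂ) ∈ NN t → α = 0 := by
      intro α h
      by_contra h0
      exact hex α h0 h
    obtain ⟨g, hgN, hgt, hg⟩ := case_poly isExp_exp (NN t) NN_closed NN_tr hno hxN hxF
    refine ⟨g.coeff, ?_, ?_, ?_⟩
    · rw [expSum_eq, ← transcendental_iff]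
      exact hgt
    · intro z
      rw [expSum_eq]
      constructor
      · rintro ⟨hz, hz'⟩
        have h1 : z ∈ (isExp_exp).ring ⊓ (NN t).toSubalgebra :=
          ⟨mem_ring_iff.2 hz, mem_NN.2 hz'⟩
        rw [hg, Algebra.adjoin_singleton_eq_range_aeval] at h1
        exact h1
      · rintro ⟨P, rfl⟩
        have h1 : aeval (isExp_exp.ev g) P ∈ (isExp_exp).ring ⊓ (NN t).toSubalgebra := by
          rw [hg, Algebra.adjoin_singleton_eq_range_aeval]
          exact ⟨P, rfl⟩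
        exact ⟨mem_ring_iff.1 h1.1, mem_NN.1 h1.2⟩
    · intro c P hP hdeg
      rw [expSum_eq] at hP
      have h1 : expSum c = isExp_exp.ev (AddMonoidAlgebra.ofCoeff c) := by rw [← expSum_eq]
      rw [h1] at hP
      have h2 : aeval (isExp_exp.ev g) P ∈ (isExp_exp).ring ⊓ (NN t).toSubalgebra := by
        rw [hg, Algebra.adjoin_singleton_eq_range_aeval]
        exact ⟨P, rfl⟩
      refine degree_bound isExp_exp (NN t) NN_closed hno (x := AddMonoidAlgebra.ofCoeff c)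
        (by rw [← hP]; exact h2.2) ?_ hP
      rw [← hP]
      rintro ⟨b, hb⟩
      have h3 : P - C b = 0 := by
        apply transcendental_iff_injective.1 hgt
        rw [map_sub, aeval_C, map_zero, sub_eq_zero]
        exact hb.symm
      rw [sub_eq_zero.1 h3, natDegree_C] at hdeg
      exact lt_irrefl _ hdeg

end Pool.Agent.TH711.ES
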