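import Pool.Agent.TH711.ES.Cx2

/-!
# Rational functions and polynomials whose values are exponential sums
-/

open IntermediateField Polynomial

namespace Pool.Agent.TH711.ES

/-- **Rational functions of a transcendental number.** -/
theorem rational_trichotomy {t : ℂ} (ht : Transcendental ℚ t) :
    (∀ z, ((∃ c, expSum c = z) ∧ z ∈ Qb⟮t⟯) ↔ IsAlgebraic ℚ z) ∨
    (∃ α : ℂ, IsAlgebraic ℚ α ∧ α ≠ 0 ∧ ∀ z, ((∃ c, expSum c = z) ∧ z ∈ Qb⟮t⟯) ↔
      z ∈ Algebra.adjoin Qb {Complex.exp α, Complex.exp (-α)}) ∨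
    ∃ g : Qb →₀ Qb, Transcendental ℚ (expSum g) ∧
      ∀ z, ((∃ c, expSum c = z) ∧ z ∈ Qb⟮t⟯) ↔ ∃ P : Qb[X], aeval (expSum g) P = z := by
  by_cases hall : ∀ z, (∃ c, expSum c = z) → z ∈ Qb⟮t⟯ → IsAlgebraic ℚ z
  · left
    intro z
    refine ⟨fun h => hall z h.1 h.2, fun h => ⟨?_, ?_⟩⟩
    · rw [← mem_ring_iff]
      exact Subalgebra.algebraMap_mem _ (⟨z, mem_Qb.2 h⟩ : Qb)
    · exact IntermediateField.algebraMap_mem _ (⟨z, mem_Qb.2 h⟩ : Qb)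
  right
  push Not at hall
  obtain ⟨f, hf, hft, hfF⟩ := hall
  rw [← mem_ring_iff] at hf
  rw [← mem_range_Qb] at hfF
  rcases rational_structure isExp_exp (transcendental_iff.2 ht) (Qb⟮t⟯).toSubalgebra
    (fun z hz => hz) (fun w hw _ => hw) hf hft hfF with ⟨s, hs, hst, h⟩ | ⟨α, hα, -, -, h⟩
  · right
    obtain ⟨g, hg⟩ := mem_ring_iff.1 hs.1
    refine ⟨g, by rw [hg]; exact transcendental_iff.1 hst, fun z => ?_⟩
    rw [hg, ← mem_ring_iff]
    have h1 : (z ∈ (isExp_exp).ring ∧ z ∈ Qb⟮t⟯) ↔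
        z ∈ (isExp_exp).ring ⊓ (Qb⟮t⟯).toSubalgebra := Iff.rfl
    rw [h1, h, Algebra.adjoin_singleton_eq_range_aeval]
    exact Iff.rfl
  · left
    refine ⟨(α : ℂ), mem_Qb.1 α.2, fun h => hα (Subtype.ext h), fun z => ?_⟩
    rw [← mem_ring_iff]
    have h1 : (z ∈ (isExp_exp).ring ∧ z ∈ Qb⟮t⟯) ↔
        z ∈ (isExp_exp).ring ⊓ (Qb⟮t⟯).toSubalgebra := Iff.rfl
    rw [h1, h, Complex.exp_neg]

/-- **Polynomials of a transcendental number.** -/
theorem poly_trichotomy {t : ℂ} (ht : Transcendental ℚ t) :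
    ∃ h : Qb[X], ∀ P : Qb[X], (∃ c, expSum c = aeval t P) ↔ ∃ Q : Qb[X], P = Q.comp h := by
  obtain ⟨h, hh⟩ := poly_structure isExp_exp (transcendental_iff.2 ht)
  refine ⟨h, fun P => ?_⟩
  rw [← mem_ring_iff]
  exact hh P

/-- Coprime degrees. -/
theorem mem_of_coprime {t : ℂ} (ht : Transcendental ℚ t) {P Q : Qb[X]}
    (hP : ∃ c, expSum c = aeval t P) (hQ : ∃ c, expSum c = aeval t Q)
    (hcop : P.natDegree.Coprime Q.natDegree) : ∃ c, expSum c = t := by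
  obtain ⟨h, hh⟩ := poly_trichotomy ht
  obtain ⟨P', hP'⟩ := (hh P).1 hP
  obtain ⟨Q', hQ'⟩ := (hh Q).1 hQ
  have h1 : h.natDegree = 1 := by
    rw [hP', hQ', natDegree_comp, natDegree_comp] at hcop
    exact Nat.eq_one_of_dvd_coprimes hcop (Dvd.intro_left _ rfl) (Dvd.intro_left _ rfl)
  obtain ⟨a, b, hab⟩ := Polynomial.exists_eq_X_add_C_of_natDegree_le_one h1.le
  have ha : a ≠ 0 := by
    rintro rfl
    rw [hab, C_0, zero_mul, zero_add, natDegree_C] at h1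
    exact zero_ne_one h1
  have h2 : (X : Qb[X]) = (C a⁻¹ * (X - C b)).comp h := by
    rw [mul_comp, sub_comp, X_comp, C_comp, C_comp, hab, add_sub_cancel_right, ← mul_assoc,
      ← C_mul, inv_mul_cancel₀ ha, C_1, one_mul]
  have h3 := (hh X).2 ⟨_, h2⟩
  rwa [aeval_X] at h3

end Pool.Agent.TH711.ES
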