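import Pool.Agent.TH711.ES.Cx3

/-!
# Consequences
-/

open IntermediateField Polynomial

namespace Pool.Agent.TH711.ES

/-- If an exponential is algebraic over `ℚ(t)`. -/
theorem line_of_exp {t α : ℂ} (hα : IsAlgebraic ℚ α) (hα0 : α ≠ 0)
    (h : IsAlgebraic ℚ⟮t⟯ (Complex.exp α)) (z : ℂ) :
    ((∃ c, expSum c = z) ∧ IsAlgebraic ℚ⟮t⟯ z) ↔
      z ∈ Submodule.span Qb (Set.range fun q : ℚ => Complex.exp (q * α)) := by
  set α' : Qb := ⟨α, mem_Qb.2 hα⟩ with hα'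
  have hα'0 : α' ≠ 0 := fun h => hα0 (congrArg Subtype.val h)
  have hαN : Complex.exp (α' : ℂ) ∈ NN t := mem_NN.2 h
  constructor
  · rintro ⟨⟨c, rfl⟩, hz⟩
    have h1 := case_line isExp_exp (NN t) NN_tr hα'0 hαN (x := AddMonoidAlgebra.ofCoeff c) (by
      rw [← expSum_eq, mem_NN]; exact hz)
    rw [expSum, Finsupp.sum]
    apply Submodule.sum_mem
    intro a ha
    obtain ⟨q, hq⟩ := h1 a (Finsupp.mem_support_iff.1 ha)
    have h2 : ((a : Qb) : ℂ) = q * α := by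
      rw [hq, Rat.smul_def]
      push_cast
      rfl
    rw [h2]
    have h3 : ((c a : Qb) : ℂ) * Complex.exp (q * α) = (c a) • Complex.exp (q * α) := by
      rw [Algebra.smul_def]; rfl
    rw [h3]
    exact Submodule.smul_mem _ _ (Submodule.subset_span ⟨q, rfl⟩)
  · intro hz
    have h1 : ∀ q : ℚ, Complex.exp (q * α) = Complex.exp ((q • α' : Qb) : ℂ) := by
      intro q
      rw [Rat.smul_def]
      push_cast
      rfl
    have h2 : Submodule.span Qb (Set.range fun q : ℚ => Complex.exp (q * α)) ≤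
        Subalgebra.toSubmodule ((isExp_exp).ring ⊓ (NN t).toSubalgebra) := by
      rw [Submodule.span_le]
      rintro _ ⟨q, rfl⟩
      change Complex.exp (q * α) ∈ (isExp_exp).ring ⊓ (NN t).toSubalgebra
      rw [h1]
      exact ⟨isExp_exp.mem_ring _, rat_smul_mem isExp_exp (NN t) NN_closed hαN q⟩
    have h3 := h2 hz
    exact ⟨mem_ring_iff.1 h3.1, mem_NN.1 h3.2⟩

/-- If a two-term sum with independent exponents is algebraic over `ℚ(t)`. -/
theorem binomial {t : ℂ} {c : Qb →₀ Qb} (hcard : c.support.card = 2) {α β : Qb}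
    (hα : c α ≠ 0) (hβ : c β ≠ 0) (hli : LinearIndependent ℚ ![α, β])
    (h : IsAlgebraic ℚ⟮t⟯ (expSum c)) (z : ℂ) :
    ((∃ c, expSum c = z) ∧ IsAlgebraic ℚ⟮t⟯ z) ↔ ∃ P : Qb[X], aeval (expSum c) P = z := by
  set x : AddMonoidAlgebra Qb Qb := AddMonoidAlgebra.ofCoeff c with hx
  have hev : isExp_exp.ev x = expSum c := (expSum_eq x).symm
  have hxN : isExp_exp.ev x ∈ NN t := by rw [hev, mem_NN]; exact h
  have hα0 : α ≠ 0 := hli.ne_zero 0
  have hxF : isExp_exp.ev x ∉ (algebraMap Qb ℂ).range := fun h1 =>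
    hα0 (eq_zero_of_ev_mem isExp_exp h1 (a := α) hα)
  have hno : ∀ δ : Qb, Complex.exp (δ : ℂ) ∈ NN t → δ = 0 := by
    intro δ hδ
    by_contra hδ0
    obtain ⟨p, hp⟩ := case_line isExp_exp (NN t) NN_tr hδ0 hδ hxN α hα
    obtain ⟨q, hq⟩ := case_line isExp_exp (NN t) NN_tr hδ0 hδ hxN β hβ
    rw [LinearIndependent.pair_iff] at hli
    have h5 := hli q (-p) (by rw [hp, hq, smul_smul, smul_smul, ← add_smul]; ring_nf; simp)
    apply hα0
    rw [hp, neg_eq_zero.1 h5.2, zero_smul]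
  obtain ⟨g, hgN, hgt, hg⟩ := case_poly isExp_exp (NN t) NN_closed NN_tr hno hxN hxF
  have hxA : isExp_exp.ev x ∈ (isExp_exp).ring ⊓ (NN t).toSubalgebra := ⟨⟨x, rfl⟩, hxN⟩
  have hxA' := hxA
  rw [hg, Algebra.adjoin_singleton_eq_range_aeval] at hxA'
  obtain ⟨P, hP⟩ := hxA'
  change aeval (isExp_exp.ev g) P = isExp_exp.ev x at hP
  have hdeg := degree_bound isExp_exp (NN t) NN_closed hno hxN hxF hP
  have hdeg' : P.natDegree < 2 := by rw [← hcard]; exact hdeg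
  obtain ⟨a, b, hab⟩ := Polynomial.exists_eq_X_add_C_of_natDegree_le_one (Nat.lt_succ_iff.1 hdeg')
  have ha : a ≠ 0 := by
    rintro rfl
    apply hxF
    rw [hab, C_0, zero_mul, zero_add, aeval_C] at hP
    exact ⟨b, hP⟩
  have hgx : isExp_exp.ev g = aeval (isExp_exp.ev x) (C a⁻¹ * (X - C b) : Qb[X]) := by
    rw [map_mul, map_sub, aeval_C, aeval_X, aeval_C, ← hP, hab, map_add, map_mul, aeval_C,
      aeval_X, aeval_C, add_sub_cancel_right, ← mul_assoc, ← map_mul, inv_mul_cancel₀ ha, map_one,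
      one_mul]
  rw [← hev]
  constructor
  · rintro ⟨hz, hz'⟩
    have h1 : z ∈ (isExp_exp).ring ⊓ (NN t).toSubalgebra := ⟨mem_ring_iff.2 hz, mem_NN.2 hz'⟩
    rw [hg, Algebra.adjoin_singleton_eq_range_aeval] at h1
    obtain ⟨Q, hQ⟩ := h1
    change aeval (isExp_exp.ev g) Q = z at hQ
    refine ⟨Q.comp (C a⁻¹ * (X - C b)), ?_⟩
    rw [aeval_comp, ← hgx, hQ]
  · rintro ⟨Q, rfl⟩
    have h1 : aeval (isExp_exp.ev x) Q ∈ (isExp_exp).ring ⊓ (NN t).toSubalgebra := by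
      have h2 := Algebra.adjoin_le (R := Qb) (s := {isExp_exp.ev x})
        (S := (isExp_exp).ring ⊓ (NN t).toSubalgebra) (by rintro _ rfl; exact hxA)
      apply h2
      rw [Algebra.adjoin_singleton_eq_range_aeval]
      exact ⟨Q, rfl⟩
    exact ⟨mem_ring_iff.1 h1.1, mem_NN.1 h1.2⟩

/-- `e` is algebraic over `ℚ(π)` if `π + e` or `π - e` is algebraic. -/
lemma exp_one_algebraic (h : IsAlgebraic ℚ ((Real.pi : ℂ) + Complex.exp 1) ∨
    IsAlgebraic ℚ ((Real.pi : ℂ) - Complex.exp 1)) :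
    IsAlgebraic ℚ⟮(Real.pi : ℂ)⟯ (Complex.exp 1) := by
  have hpi : IsAlgebraic ℚ⟮(Real.pi : ℂ)⟯ (Real.pi : ℂ) :=
    isAlgebraic_algebraMap (⟨(Real.pi : ℂ), IntermediateField.mem_adjoin_simple_self ℚ _⟩ :
      ℚ⟮(Real.pi : ℂ)⟯)
  rcases h with h | h
  · have h1 : IsAlgebraic ℚ⟮(Real.pi : ℂ)⟯ ((Real.pi : ℂ) + Complex.exp 1) := h.tower_top _
    have h2 := h1.sub hpi
    rwa [add_sub_cancel_left] at h2
  · have h1 : IsAlgebraic ℚ⟮(Real.pi : ℂ)⟯ ((Real.pi : ℂ) - Complex.exp 1) := h.tower_top _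
    have h2 := hpi.sub h1
    rwa [sub_sub_cancel] at h2

end Pool.Agent.TH711.ES
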