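import Pool.Agent.TH711.ES.Cx3

/-!
# Rational functions of an exponential
-/

open IntermediateField Polynomial

namespace Pool.Agent.TH711.ES

section Abstract

variable {F M G : Type*} [Field F] [Field M] [Algebra F M] [AddCommGroup G] [Module ℚ G]

omit [Module ℚ G] in
lemma transcendental_m [IsAlgClosed F] {m : G → M} (hm : IsExp F m) {α : G} (hα : α ≠ 0) :
    Transcendental F (m α) := by
  intro h
  apply hα
  apply eq_zero_of_mem_range hm
  exact minpoly.mem_range_of_degree_eq_one F (m α)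
    (IsAlgClosed.degree_eq_one_of_irreducible F (minpoly.irreducible h.isIntegral))

omit [Field F] [Field M] [Algebra F M] [AddCommGroup G] [Module ℚ G] in
/-- A transcendental element is not a rational function of a proper power. -/
lemma eq_one_of_mem_pow [Field F] [Field M] [Algebra F M] {y : M} (hy : Transcendental F y) {n : ℕ}
    (h : y ∈ F⟮y ^ n⟯) : n = 1 := by
  obtain ⟨P, Q, hPQ⟩ := mem_adjoin_simple_iff F _ |>.1 h
  have hy0 : y ≠ 0 := by
    rintro rfl
    exact hy isAlgebraic_zero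
  have hQ : aeval (y ^ n) Q ≠ 0 := by
    intro h0
    rw [h0, div_zero] at hPQ
    exact hy0 hPQ
  have h1 : y * aeval (y ^ n) Q = aeval (y ^ n) P := by
    rw [eq_div_iff hQ] at hPQ
    exact hPQ
  have h2 : X * Q.comp (X ^ n) = P.comp (X ^ n) := by
    apply transcendental_iff_injective.1 hy
    rw [map_mul, aeval_X, aeval_comp, aeval_comp, map_pow, aeval_X, h1]
  have hQ0 : Q.comp (X ^ n) ≠ 0 := by
    intro h0
    apply hQ
    have h3 : aeval y (Q.comp (X ^ n)) = aeval (y ^ n) Q := by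
      rw [aeval_comp, map_pow, aeval_X]
    rw [← h3, h0, map_zero]
  have h3 := congrArg natDegree h2
  rw [natDegree_X_mul hQ0, natDegree_comp, natDegree_comp, natDegree_X_pow] at h3
  have h4 : n ∣ 1 := by
    have h5 : n ∣ Q.natDegree * n + 1 := by rw [h3]; exact Dvd.intro_left _ rfl
    exact (Nat.dvd_add_right (Dvd.intro_left _ rfl)).1 h5
  exact Nat.dvd_one.1 h4

theorem ring_inf_adjoin [CharZero F] [IsAlgClosed F] {m : G → M} (hm : IsExp F m) {α : G} (hα : α ≠ 0) :
    hm.ring ⊓ (F⟮m α⟯).toSubalgebra = Algebra.adjoin F {m α, (m α)⁻¹} := by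
  have ht := transcendental_m hm hα
  have hmem : m α ∈ F⟮m α⟯ := mem_adjoin_simple_self F _
  have hA : m α ∈ hm.ring ⊓ (F⟮m α⟯).toSubalgebra := ⟨hm.mem_ring α, hmem⟩
  have hA' : (m α)⁻¹ ∈ hm.ring ⊓ (F⟮m α⟯).toSubalgebra := by
    refine ⟨?_, (F⟮m α⟯).inv_mem hmem⟩
    rw [SetLike.mem_coe, ← hm.neg]
    exact hm.mem_ring _
  rcases rational_structure hm ht (F⟮m α⟯).toSubalgebra (fun z hz => hz) (fun w hw _ => hw)
    (hm.mem_ring α) hmem (fun h => hα (eq_zero_of_mem_range hm h)) with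
    ⟨s, hs, hst, h⟩ | ⟨β, hβ, h1, -, h⟩
  · rw [h] at hA hA'
    exact absurd (not_unit hm hst hA hA') hα
  · have hA2 := hA
    rw [h] at hA2
    obtain ⟨x, hx, hx'⟩ := laurent_mem hm hA2
    have e2 : x = AddMonoidAlgebra.single α 1 := by
      apply hm.ev_injective
      rw [hx, hm.ev_single, map_one, one_mul]
    obtain ⟨k, hk⟩ := hx' α (by
      rw [e2, AddMonoidAlgebra.coeff_single, Finsupp.single_eq_same]; exact one_ne_zero)
    have hβt := transcendental_m hm hβ
    have hpow : m α = m β ^ k.natAbs ∨ m α = (m β ^ k.natAbs)⁻¹ := by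
      rcases Int.natAbs_eq k with hk' | hk'
      · left
        rw [hk, ← hm.nsmul, ← natCast_zsmul, ← hk']
      · right
        rw [hk, ← hm.nsmul, ← hm.neg, ← natCast_zsmul, ← neg_smul, ← hk']
    have hle : F⟮m α⟯ ≤ F⟮m β ^ k.natAbs⟯ := by
      rw [IntermediateField.adjoin_simple_le_iff]
      rcases hpow with h2 | h2
      · rw [h2]; exact mem_adjoin_simple_self F _
      · rw [h2]; exact (F⟮m β ^ k.natAbs⟯).inv_mem (mem_adjoin_simple_self F _)
    have hk1 := eq_one_of_mem_pow hβt (hle h1)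
    rw [hk1, pow_one] at hpow
    rw [h]
    rcases hpow with h2 | h2
    · rw [h2]
    · rw [h2, inv_inv, Set.pair_comm]

end Abstract

/-- A linear relation with an exponential. -/
theorem linear_relation {t α a b c : ℂ} (ht : Transcendental ℚ t) (hα : IsAlgebraic ℚ α)
    (ha : IsAlgebraic ℚ a) (hb : IsAlgebraic ℚ b) (hc : IsAlgebraic ℚ c) (hc0 : c ≠ 0)
    (h : a + b * Complex.exp α + c * t = 0) (z : ℂ) :
    ((∃ c, expSum c = z) ∧ z ∈ Qb⟮t⟯) ↔
      z ∈ Algebra.adjoin Qb {Complex.exp α, Complex.exp (-α)} := by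
  have hb0 : b ≠ 0 := by
    rintro rfl
    apply ht
    have h1 : t = -a * c⁻¹ := by
      field_simp
      linear_combination h
    rw [h1]
    exact ha.neg.mul hc.inv
  have hα0 : α ≠ 0 := by
    rintro rfl
    apply ht
    have h1 : t = -(a + b) * c⁻¹ := by
      rw [Complex.exp_zero] at h
      field_simp
      linear_combination h
    rw [h1]
    exact (ha.add hb).neg.mul hc.inv
  set α' : Qb := ⟨α, mem_Qb.2 hα⟩ with hα'
  have hα'0 : α' ≠ 0 := fun h => hα0 (congrArg Subtype.val h)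
  have hmem : ∀ {w : ℂ} (K : IntermediateField Qb ℂ), IsAlgebraic ℚ w → w ∈ K := fun K hw =>
    K.algebraMap_mem (⟨_, mem_Qb.2 hw⟩ : Qb)
  have hfield : Qb⟮t⟯ = Qb⟮Complex.exp α⟯ := by
    apply le_antisymm
    · rw [IntermediateField.adjoin_simple_le_iff]
      have h1 : t = (-a - b * Complex.exp α) * c⁻¹ := by
        field_simp
        linear_combination h
      rw [h1]
      exact mul_mem (sub_mem (hmem _ ha.neg) (mul_mem (hmem _ hb) (mem_adjoin_simple_self Qb _)))
        (hmem _ hc.inv)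
    · rw [IntermediateField.adjoin_simple_le_iff]
      have h1 : Complex.exp α = (-a - c * t) * b⁻¹ := by
        field_simp
        linear_combination h
      rw [h1]
      exact mul_mem (sub_mem (hmem _ ha.neg) (mul_mem (hmem _ hc) (mem_adjoin_simple_self Qb _)))
        (hmem _ hb.inv)
  rw [hfield, ← mem_ring_iff]
  have h2 := ring_inf_adjoin isExp_exp hα'0
  have h3 : (z ∈ (isExp_exp).ring ∧ z ∈ Qb⟮Complex.exp α⟯) ↔
      z ∈ (isExp_exp).ring ⊓ (Qb⟮Complex.exp (α' : ℂ)⟯).toSubalgebra := Iff.rfl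
  rw [h3, h2, Complex.exp_neg]

end Pool.Agent.TH711.ES
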