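import Pool.Agent.TH711.ES.Base

/-!
# Polynomials in an exponential sum: the degree is bounded by the number of terms
-/

open Finset

namespace Pool.Agent.TH711.ES

variable {F G : Type*} [Field F] [AddCommGroup G]

/-- Multiplication of the coefficients by a function of the exponent. -/
noncomputable def wop (φ : G → F) (x : AddMonoidAlgebra F G) : AddMonoidAlgebra F G :=
  AddMonoidAlgebra.ofCoeff (Finsupp.onFinset x.coeff.support (fun a => φ a * x.coeff a)
    (fun a ha => Finsupp.mem_support_iff.2 (right_ne_zero_of_mul ha)))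

@[simp] lemma wop_coeff (φ : G → F) (x : AddMonoidAlgebra F G) (a : G) :
    (wop φ x).coeff a = φ a * x.coeff a := rfl

lemma wop_add (φ : G → F) (x y : AddMonoidAlgebra F G) : wop φ (x + y) = wop φ x + wop φ y := by
  ext a
  rw [wop_coeff, AddMonoidAlgebra.coeff_add, AddMonoidAlgebra.coeff_add, Finsupp.add_apply,
    Finsupp.add_apply, wop_coeff, wop_coeff, mul_add]

lemma wop_zero (φ : G → F) : wop φ (0 : AddMonoidAlgebra F G) = 0 := by
  ext a
  rw [wop_coeff, AddMonoidAlgebra.coeff_zero, Finsupp.zero_apply, mul_zero]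

lemma wop_single (φ : G → F) (a : G) (c : F) :
    wop φ (AddMonoidAlgebra.single a c) = AddMonoidAlgebra.single a (φ a * c) := by
  classical
  ext b
  rw [wop_coeff, AddMonoidAlgebra.coeff_single, AddMonoidAlgebra.coeff_single,
    Finsupp.single_apply, Finsupp.single_apply]
  split_ifs with h
  · rw [h]
  · rw [mul_zero]

/-- The derivation attached to an additive function. -/
lemma wop_mul (v : G →+ F) (x y : AddMonoidAlgebra F G) :
    wop v (x * y) = wop v x * y + x * wop v y := by
  induction x using AddMonoidAlgebra.induction_linear with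
  | zero => rw [zero_mul, wop_zero, zero_mul, zero_mul, add_zero]
  | add x x' hx hx' => rw [add_mul, wop_add, hx, hx', wop_add, add_mul, add_mul]; abel
  | single a c =>
    induction y using AddMonoidAlgebra.induction_linear with
    | zero => rw [mul_zero, wop_zero, mul_zero, mul_zero, add_zero]
    | add y y' hy hy' => rw [mul_add, wop_add, hy, hy', wop_add, mul_add, mul_add]; abel
    | single b d =>
      rw [AddMonoidAlgebra.single_mul_single, wop_single, wop_single, wop_single,
        AddMonoidAlgebra.single_mul_single, AddMonoidAlgebra.single_mul_single, map_add,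
        ← AddMonoidAlgebra.single_add]
      congr 1
      ring

lemma wop_sub (v : G →+ F) (c : F) (x : AddMonoidAlgebra F G) :
    wop (fun a => v a - c) x = wop v x - c • x := by
  ext a
  rw [wop_coeff, AddMonoidAlgebra.coeff_sub, Finsupp.sub_apply, wop_coeff,
    AddMonoidAlgebra.coeff_smul, Finsupp.smul_apply, smul_eq_mul, sub_mul]

lemma pow_dvd_wop (v : G →+ F) {l x : AddMonoidAlgebra F G} {k : ℕ} (h : l ^ (k + 1) ∣ x) :
    l ^ k ∣ wop v x := by
  induction k generalizing x with
  | zero => rw [pow_zero]; exact one_dvd _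
  | succ k ih =>
    obtain ⟨y, rfl⟩ := h
    have h1 : l ^ (k + 1 + 1) * y = l * (l ^ (k + 1) * y) := by rw [pow_succ']; ring
    rw [h1, wop_mul]
    apply dvd_add
    · exact dvd_mul_of_dvd_right (dvd_mul_right (l ^ (k + 1)) y) _
    · have h2 : l ^ k ∣ wop v (l ^ (k + 1) * y) := ih (dvd_mul_right (l ^ (k + 1)) y)
      have h3 : l ^ (k + 1) = l * l ^ k := pow_succ' l k
      calc l ^ (k + 1) = l * l ^ k := h3
        _ ∣ l * wop v (l ^ (k + 1) * y) := mul_dvd_mul_left l h2

lemma pow_dvd_wop_sub (v : G →+ F) (c : F) {l x : AddMonoidAlgebra F G} {k : ℕ}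
    (h : l ^ (k + 1) ∣ x) : l ^ k ∣ wop (fun a => v a - c) x := by
  rw [wop_sub]
  obtain ⟨y, hy⟩ := (pow_dvd_pow l (Nat.le_succ k)).trans h
  refine dvd_sub (pow_dvd_wop v h) ⟨c • y, ?_⟩
  rw [hy, mul_smul_comm]

variable [CharZero F] [Module ℚ G]

/-- An additive function to the field, injective on a finite set. -/
lemma exists_sep_field (T : Finset G) : ∃ v : G →+ F, Set.InjOn v T := by
  classical
  obtain ⟨φ, hφ⟩ := Module.exists_dual_forall_apply_ne_zero (K := ℚ)
    (fun p : {p : T × T // p.1 ≠ p.2} => ((p.1.1 : G) - (p.1.2 : G))) (by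
      intro p h0
      exact p.2 (Subtype.ext (sub_eq_zero.1 h0)))
  refine ⟨(algebraMap ℚ F : ℚ →+ F).comp φ.toAddMonoidHom, ?_⟩
  intro a ha b hb hab
  by_contra hne
  apply hφ ⟨(⟨a, ha⟩, ⟨b, hb⟩), fun h => hne (congrArg Subtype.val h)⟩
  have h1 : algebraMap ℚ F (φ a) = algebraMap ℚ F (φ b) := hab
  have h2 := (algebraMap ℚ F).injective h1
  change φ (a - b) = 0
  rw [map_sub, h2, sub_self]

/-- **The number of terms of a multiple of a power.** -/
theorem lt_card_of_pow_dvd {l : AddMonoidAlgebra F G}
    (hl : ∀ a c, l ≠ AddMonoidAlgebra.single a c) {d : ℕ} :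
    ∀ {h : AddMonoidAlgebra F G}, h ≠ 0 → l ^ d ∣ h → d < h.coeff.support.card := by
  classical
  induction d with
  | zero =>
    intro h h0 _
    rw [Finset.card_pos, Finsupp.support_nonempty_iff, Ne, AddMonoidAlgebra.coeff_eq_zero]
    exact h0
  | succ d ih =>
    intro h h0 hdvd
    have hne : h.coeff.support.Nonempty := by
      rw [Finsupp.support_nonempty_iff, Ne, AddMonoidAlgebra.coeff_eq_zero]
      exact h0
    obtain ⟨a₀, ha₀⟩ := hne
    obtain ⟨v, hv⟩ := exists_sep_field (F := F) h.coeff.support
    set h' := wop (fun a => v a - v a₀) h with hh'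
    have hsupp : h'.coeff.support = h.coeff.support.erase a₀ := by
      ext a
      rw [Finset.mem_erase, Finsupp.mem_support_iff, Finsupp.mem_support_iff, hh', wop_coeff]
      constructor
      · intro h1
        have h2 := left_ne_zero_of_mul h1
        exact ⟨fun h3 => h2 (by rw [h3, sub_self]), right_ne_zero_of_mul h1⟩
      · rintro ⟨h1, h2⟩
        refine mul_ne_zero (fun h3 => h1 ?_) h2
        exact hv (Finsupp.mem_support_iff.2 h2) ha₀ (sub_eq_zero.1 h3)
    have hcard : h'.coeff.support.card = h.coeff.support.card - 1 := by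
      rw [hsupp, Finset.card_erase_of_mem ha₀]
    have hpos : 0 < h.coeff.support.card := Finset.card_pos.2 ⟨a₀, ha₀⟩
    by_cases h'0 : h' = 0
    · exfalso
      have h1 : h.coeff.support.card = 1 := by
        rw [h'0] at hcard
        simp at hcard
        omega
      obtain ⟨a, c, hac, he⟩ := Finsupp.card_support_eq_one'.1 h1
      have he' : h = AddMonoidAlgebra.single a c := AddMonoidAlgebra.ext (by rw [he]; rfl)
      obtain ⟨y, hy⟩ := hdvd
      have h2 : l * (l ^ d * y * AddMonoidAlgebra.single (-a) c⁻¹) = 1 := by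
        calc l * (l ^ d * y * AddMonoidAlgebra.single (-a) c⁻¹)
            = (l ^ (d + 1) * y) * AddMonoidAlgebra.single (-a) c⁻¹ := by rw [pow_succ']; ring
          _ = AddMonoidAlgebra.single a c * AddMonoidAlgebra.single (-a) c⁻¹ := by
              rw [← hy, he']
          _ = 1 := by
              rw [AddMonoidAlgebra.single_mul_single, add_neg_cancel, mul_inv_cancel₀ hac]
              rfl
      obtain ⟨b, c', hb⟩ := unit_monomial h2
      exact hl b c' hb
    · have := ih h'0 (pow_dvd_wop_sub v (v a₀) hdvd)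
      omega

end Pool.Agent.TH711.ES
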