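import Pool.Agent.TH711.ES.Edge

/-!
# The degree of a polynomial whose value at an exponential sum is a given sum
-/

open Finset

namespace Pool.Agent.TH711.ES

variable {F G : Type*} [Field F] [AddCommGroup G] [CharZero F] [Module ℚ G]

section Filtration

omit [CharZero F]

variable (u : Module.Dual ℚ G)

/-- All exponents have value less than `q`. -/
def Lt (q : ℚ) (x : AddMonoidAlgebra F G) : Prop := ∀ a, x.coeff a ≠ 0 → u a < q

/-- All exponents have value at most `q`. -/
def Le (q : ℚ) (x : AddMonoidAlgebra F G) : Prop := ∀ a, x.coeff a ≠ 0 → u a ≤ q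

/-- All exponents have value `q`. -/
def Eqq (q : ℚ) (x : AddMonoidAlgebra F G) : Prop := ∀ a, x.coeff a ≠ 0 → u a = q

variable {u}

lemma mul_coeff_ne {x y : AddMonoidAlgebra F G} {a : G} (h : (x * y).coeff a ≠ 0) :
    ∃ b c, x.coeff b ≠ 0 ∧ y.coeff c ≠ 0 ∧ b + c = a := by
  classical
  have h1 := AddMonoidAlgebra.support_coeff_mul_subset x y (Finsupp.mem_support_iff.2 h)
  obtain ⟨b, hb, c, hc, hbc⟩ := Finset.mem_add.1 h1
  exact ⟨b, c, Finsupp.mem_support_iff.1 hb, Finsupp.mem_support_iff.1 hc, hbc⟩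

lemma Lt.le {q : ℚ} {x : AddMonoidAlgebra F G} (h : Lt u q x) : Le u q x := fun a ha => (h a ha).le

lemma Eqq.le {q : ℚ} {x : AddMonoidAlgebra F G} (h : Eqq u q x) : Le u q x :=
  fun a ha => (h a ha).le

lemma Le.mul {p q : ℚ} {x y : AddMonoidAlgebra F G} (hx : Le u p x) (hy : Le u q y) :
    Le u (p + q) (x * y) := by
  intro a ha
  obtain ⟨b, c, hb, hc, rfl⟩ := mul_coeff_ne ha
  rw [map_add]
  exact add_le_add (hx b hb) (hy c hc)

lemma Le.mul_lt {p q : ℚ} {x y : AddMonoidAlgebra F G} (hx : Le u p x) (hy : Lt u q y) :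
    Lt u (p + q) (x * y) := by
  intro a ha
  obtain ⟨b, c, hb, hc, rfl⟩ := mul_coeff_ne ha
  rw [map_add]
  exact add_lt_add_of_le_of_lt (hx b hb) (hy c hc)

lemma Eqq.mul {p q : ℚ} {x y : AddMonoidAlgebra F G} (hx : Eqq u p x) (hy : Eqq u q y) :
    Eqq u (p + q) (x * y) := by
  intro a ha
  obtain ⟨b, c, hb, hc, rfl⟩ := mul_coeff_ne ha
  rw [map_add, hx b hb, hy c hc]

lemma Lt.add {q : ℚ} {x y : AddMonoidAlgebra F G} (hx : Lt u q x) (hy : Lt u q y) :
    Lt u q (x + y) := by
  intro a ha
  by_cases h : x.coeff a = 0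
  · apply hy a
    intro h'
    rw [AddMonoidAlgebra.coeff_add, Finsupp.add_apply, h, h', add_zero] at ha
    exact ha rfl
  · exact hx a h

lemma Lt.smul {q : ℚ} {x : AddMonoidAlgebra F G} (hx : Lt u q x) (c : F) : Lt u q (c • x) := by
  intro a ha
  apply hx a
  intro h
  rw [AddMonoidAlgebra.coeff_smul, Finsupp.smul_apply, h, smul_zero] at ha
  exact ha rfl

lemma Lt.zero (q : ℚ) : Lt u q (0 : AddMonoidAlgebra F G) := by
  intro a ha
  exact absurd (by rw [AddMonoidAlgebra.coeff_zero, Finsupp.zero_apply]) ha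

lemma Lt.sum {ι : Type*} {s : Finset ι} {q : ℚ} {f : ι → AddMonoidAlgebra F G}
    (hf : ∀ i ∈ s, Lt u q (f i)) : Lt u q (∑ i ∈ s, f i) := by
  classical
  induction s using Finset.induction_on with
  | empty => rw [Finset.sum_empty]; exact Lt.zero q
  | insert a s ha ih =>
    rw [Finset.sum_insert ha]
    exact (hf a (Finset.mem_insert_self _ _)).add (ih (fun i hi => hf i (Finset.mem_insert_of_mem hi)))

lemma Eqq.one : Eqq u 0 (1 : AddMonoidAlgebra F G) := by
  classical
  intro a ha
  rw [AddMonoidAlgebra.one_def, AddMonoidAlgebra.coeff_single, Finsupp.single_apply] at ha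
  by_cases h : 0 = a
  · rw [← h, map_zero]
  · rw [if_neg h] at ha; exact absurd rfl ha

lemma Eqq.pow {q : ℚ} {x : AddMonoidAlgebra F G} (hx : Eqq u q x) (i : ℕ) :
    Eqq u (i * q) (x ^ i) := by
  induction i with
  | zero => rw [pow_zero, Nat.cast_zero, zero_mul]; exact Eqq.one
  | succ i ih =>
    rw [pow_succ]
    have := ih.mul hx
    rwa [show (i : ℚ) * q + q = ((i + 1 : ℕ) : ℚ) * q by push_cast; ring] at this

lemma pow_sub_pow_lt {q : ℚ} {x r : AddMonoidAlgebra F G} (hx : Eqq u q x) (hr : Lt u q r)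
    (i : ℕ) : Lt u (i * q) ((x + r) ^ i - x ^ i) := by
  induction i with
  | zero => rw [pow_zero, pow_zero, sub_self]; exact Lt.zero _
  | succ i ih =>
    have e : (x + r) ^ (i + 1) - x ^ (i + 1) = (x + r) * ((x + r) ^ i - x ^ i) + x ^ i * r := by
      rw [pow_succ, pow_succ]; ring
    rw [e]
    have hxr : Le u q (x + r) := by
      intro a ha
      by_cases h : x.coeff a = 0
      · apply hr.le a
        intro h'
        rw [AddMonoidAlgebra.coeff_add, Finsupp.add_apply, h, h', add_zero] at ha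
        exact ha rfl
      · exact hx.le a h
    have h1 := hxr.mul_lt ih
    have h2 := (hx.pow i).le.mul_lt hr
    rw [show q + (i : ℚ) * q = ((i + 1 : ℕ) : ℚ) * q by push_cast; ring] at h1
    rw [show (i : ℚ) * q + q = ((i + 1 : ℕ) : ℚ) * q by push_cast; ring] at h2
    exact h1.add h2

lemma Le.pow {q : ℚ} {x : AddMonoidAlgebra F G} (hx : Le u q x) (i : ℕ) :
    Le u (i * q) (x ^ i) := by
  induction i with
  | zero => rw [pow_zero, Nat.cast_zero, zero_mul]; exact Eqq.one.le
  | succ i ih =>
    rw [pow_succ]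
    have := ih.mul hx
    rwa [show (i : ℚ) * q + q = ((i + 1 : ℕ) : ℚ) * q by push_cast; ring] at this

end Filtration

/-- **The degree of a polynomial with a given value.** -/
theorem natDegree_lt_card {u : Module.Dual ℚ G} {f g : AddMonoidAlgebra F G} {P : Polynomial F}
    (hf : f = Polynomial.aeval g P) {q : ℚ} (hq : 0 < q) (hle : Le u q f) {a b : G} (hab : a ≠ b)
    (ha : f.coeff a ≠ 0) (hb : f.coeff b ≠ 0) (hua : u a = q) (hub : u b = q) :
    P.natDegree < f.coeff.support.card := by
  classical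
  have hf0 : f ≠ 0 := by
    rintro rfl
    exact ha (by rw [AddMonoidAlgebra.coeff_zero, Finsupp.zero_apply])
  have hP0 : P ≠ 0 := by
    rintro rfl
    rw [map_zero] at hf
    exact hf0 hf
  have hg0 : g ≠ 0 := by
    rintro rfl
    have h1 : f = AddMonoidAlgebra.single 0 (P.coeff 0) := by
      rw [hf, Polynomial.aeval_eq_sum_range, Finset.sum_range_succ']
      rw [Finset.sum_eq_zero (fun i _ => by rw [zero_pow (Nat.succ_ne_zero i), smul_zero])]
      rw [zero_add, pow_zero, AddMonoidAlgebra.one_def, AddMonoidAlgebra.smul_single, smul_eq_mul,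
        mul_one]
    have h2 : ∀ t, f.coeff t ≠ 0 → t = 0 := by
      intro t ht
      rw [h1, AddMonoidAlgebra.coeff_single, Finsupp.single_apply] at ht
      by_contra h3
      rw [if_neg (fun h => h3 h.symm)] at ht
      exact ht rfl
    exact hab ((h2 a ha).trans (h2 b hb).symm)
  -- the leading form
  have hne : g.coeff.support.Nonempty := by
    rw [Finsupp.support_nonempty_iff, Ne, AddMonoidAlgebra.coeff_eq_zero]
    exact hg0
  obtain ⟨t₀, ht₀, hmax⟩ := Finset.exists_max_image g.coeff.support u hne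
  set m₁ := u t₀ with hm₁
  set l := wop (fun t => if u t = m₁ then (1 : F) else 0) g with hl
  set r := wop (fun t => if u t = m₁ then (0 : F) else 1) g with hr
  have hglr : g = l + r := by
    ext t
    rw [AddMonoidAlgebra.coeff_add, Finsupp.add_apply, hl, hr, wop_coeff, wop_coeff]
    split_ifs <;> ring
  have hlE : Eqq u m₁ l := by
    intro t ht
    rw [hl, wop_coeff] at ht
    by_contra h
    rw [if_neg h, zero_mul] at ht
    exact ht rfl
  have hrL : Lt u m₁ r := by
    intro t ht
    rw [hr, wop_coeff] at ht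
    have h1 : u t ≠ m₁ := by
      intro h
      rw [if_pos h, zero_mul] at ht
      exact ht rfl
    have h2 := right_ne_zero_of_mul ht
    exact lt_of_le_of_ne (hmax t (Finsupp.mem_support_iff.2 h2)) h1
  have hl0 : l ≠ 0 := by
    intro h0
    have h1 : l.coeff t₀ = 0 := by rw [h0, AddMonoidAlgebra.coeff_zero, Finsupp.zero_apply]
    rw [hl, wop_coeff, if_pos rfl, one_mul] at h1
    exact (Finsupp.mem_support_iff.1 ht₀) h1
  have hgL : Le u m₁ g := fun t ht => hmax t (Finsupp.mem_support_iff.2 ht)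
  set d := P.natDegree with hd
  -- the degree of `g` is positive
  have hm₁pos : 0 < m₁ := by
    by_contra hneg
    push Not at hneg
    have h1 : Le u 0 f := by
      intro t ht
      rw [hf, Polynomial.aeval_eq_sum_range, AddMonoidAlgebra.coeff_sum, Finsupp.finsetSum_apply]
        at ht
      obtain ⟨i, -, hi⟩ := Finset.exists_ne_zero_of_sum_ne_zero ht
      rw [AddMonoidAlgebra.coeff_smul, Finsupp.smul_apply] at hi
      have h2 : (g ^ i).coeff t ≠ 0 := fun h => hi (by rw [h, smul_zero])
      refine (hgL.pow i t h2).trans ?_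
      exact mul_nonpos_of_nonneg_of_nonpos (Nat.cast_nonneg i) hneg
    have h2 := h1 a ha
    rw [hua] at h2
    linarith
  -- the leading part of `f`
  have hlead : Lt u (d * m₁) (f - P.coeff d • l ^ d) := by
    have h1 : f - P.coeff d • l ^ d = (∑ i ∈ Finset.range d, P.coeff i • g ^ i) +
        P.coeff d • (g ^ d - l ^ d) := by
      rw [hf, Polynomial.aeval_eq_sum_range, Finset.sum_range_succ, smul_sub]
      abel
    rw [h1]
    apply Lt.add
    · apply Lt.sum
      intro i hi
      rw [Finset.mem_range] at hi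
      apply Lt.smul
      intro t ht
      refine lt_of_le_of_lt (hgL.pow i t ht) ?_
      apply mul_lt_mul_of_pos_right _ hm₁pos
      exact_mod_cast hi
    · apply Lt.smul
      have h2 := pow_sub_pow_lt hlE hrL d
      rw [← hglr] at h2
      exact h2
  have hld : Eqq u (d * m₁) (l ^ d) := hlE.pow d
  have hld0 : l ^ d ≠ 0 := pow_ne_zero _ hl0
  have hPd : P.coeff d ≠ 0 := by
    rw [hd]; exact Polynomial.leadingCoeff_ne_zero.2 hP0
  have hcoef : ∀ t, ¬ u t < d * m₁ → f.coeff t = P.coeff d * (l ^ d).coeff t := by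
    intro t ht
    by_contra h1
    apply ht
    apply hlead t
    rw [AddMonoidAlgebra.coeff_sub, Finsupp.sub_apply, AddMonoidAlgebra.coeff_smul,
      Finsupp.smul_apply, smul_eq_mul]
    exact sub_ne_zero.2 h1
  have hqd : q = d * m₁ := by
    rcases lt_trichotomy q (d * m₁) with h1 | h1 | h1
    · exfalso
      have h2 : (l ^ d).coeff.support.Nonempty := by
        rw [Finsupp.support_nonempty_iff, Ne, AddMonoidAlgebra.coeff_eq_zero]
        exact hld0
      obtain ⟨t, ht⟩ := h2
      rw [Finsupp.mem_support_iff] at ht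
      have h3 := hld t ht
      have h4 : f.coeff t ≠ 0 := by
        rw [hcoef t (by rw [h3]; exact lt_irrefl _)]
        exact mul_ne_zero hPd ht
      have h5 := hle t h4
      linarith
    · exact h1
    · exfalso
      have h2 := hcoef a (by rw [hua]; exact not_lt.2 h1.le)
      have h3 : (l ^ d).coeff a = 0 := by
        by_contra h4
        have h5 := hld a h4
        linarith
      rw [h3, mul_zero] at h2
      exact ha h2
  have hsub : (l ^ d).coeff.support ⊆ f.coeff.support := by
    intro t ht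
    rw [Finsupp.mem_support_iff] at ht ⊢
    rw [hcoef t (by rw [hld t ht]; exact lt_irrefl _)]
    exact mul_ne_zero hPd ht
  have hl_ab : (l ^ d).coeff a ≠ 0 ∧ (l ^ d).coeff b ≠ 0 := by
    have h1 := hcoef a (by rw [hua, hqd]; exact lt_irrefl _)
    have h2 := hcoef b (by rw [hub, hqd]; exact lt_irrefl _)
    exact ⟨right_ne_zero_of_mul (h1 ▸ ha), right_ne_zero_of_mul (h2 ▸ hb)⟩
  have hlmono : ∀ t c, l ≠ AddMonoidAlgebra.single t c := by
    intro t c hlt
    have h1 : l ^ d = AddMonoidAlgebra.single (d • t) (c ^ d) := by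
      rw [hlt, AddMonoidAlgebra.single_pow]
    have h2 : ∀ s, (l ^ d).coeff s ≠ 0 → s = d • t := by
      intro s hs
      rw [h1, AddMonoidAlgebra.coeff_single, Finsupp.single_apply] at hs
      by_contra h3
      rw [if_neg (fun h => h3 h.symm)] at hs
      exact hs rfl
    exact hab ((h2 a hl_ab.1).trans (h2 b hl_ab.2).symm)
  exact lt_of_lt_of_le (lt_card_of_pow_dvd hlmono hld0 dvd_rfl) (Finset.card_le_card hsub)

end Pool.Agent.TH711.ES
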