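import Pool.Agent.TH711.ES.Edge2

/-!
# An edge of the convex hull of the exponents
-/

open Finset

namespace Pool.Agent.TH711.ES

variable {F G : Type*} [Field F] [AddCommGroup G] [Module ℚ G]

/-- Prescribed values on two independent vectors. -/
lemma exists_dual_pair {a b : G} (hli : LinearIndependent ℚ ![a, b]) (x y : ℚ) :
    ∃ u : Module.Dual ℚ G, u a = x ∧ u b = y := by
  obtain ⟨g, hg⟩ := LinearMap.exists_leftInverse_of_injective
    (Finsupp.linearCombination ℚ ![a, b]) (LinearMap.ker_eq_bot.2 hli)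
  have hg' : ∀ z, g (Finsupp.linearCombination ℚ ![a, b] z) = z := fun z =>
    DFunLike.congr_fun hg z
  have ha : g a = Finsupp.single 0 1 := by
    rw [← hg' (Finsupp.single 0 1), Finsupp.linearCombination_single, one_smul]
    rfl
  have hb : g b = Finsupp.single 1 1 := by
    rw [← hg' (Finsupp.single 1 1), Finsupp.linearCombination_single, one_smul]
    rfl
  refine ⟨(Finsupp.linearCombination ℚ ![x, y]).comp g, ?_, ?_⟩
  · rw [LinearMap.comp_apply, ha, Finsupp.linearCombination_single, one_smul]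
    rfl
  · rw [LinearMap.comp_apply, hb, Finsupp.linearCombination_single, one_smul]
    rfl

/-- **A linear functional with a positive maximum on the exponents which is attained twice.** -/
theorem exists_edge {f : AddMonoidAlgebra F G} {c₁ c₂ : G} (h₁ : f.coeff c₁ ≠ 0)
    (h₂ : f.coeff c₂ ≠ 0) (hli : LinearIndependent ℚ ![c₁, c₂]) :
    ∃ (u : Module.Dual ℚ G) (q : ℚ) (a b : G), 0 < q ∧ Le u q f ∧ a ≠ b ∧ f.coeff a ≠ 0 ∧
      f.coeff b ≠ 0 ∧ u a = q ∧ u b = q := by
  classical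
  obtain ⟨u₀, hu₁, -⟩ := exists_dual_pair hli 1 0
  obtain ⟨a, ha, hmax⟩ := Finset.exists_max_image f.coeff.support u₀
    ⟨c₁, Finsupp.mem_support_iff.2 h₁⟩
  have hqa : 0 < u₀ a := by
    have := hmax c₁ (Finsupp.mem_support_iff.2 h₁)
    linarith
  have ha0 : a ≠ 0 := by
    rintro rfl
    rw [map_zero] at hqa
    exact lt_irrefl _ hqa
  -- an exponent independent of `a`
  obtain ⟨b, hb, hab⟩ : ∃ b, f.coeff b ≠ 0 ∧ LinearIndependent ℚ ![a, b] := by
    by_contra hno
    push Not at hno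
    have h3 : ∀ b, f.coeff b ≠ 0 → ∃ q : ℚ, b = q • a := by
      intro b hb
      have h4 := hno b hb
      rw [LinearIndependent.pair_iff' ha0] at h4
      push Not at h4
      obtain ⟨q, hq⟩ := h4
      exact ⟨q, hq.symm⟩
    obtain ⟨q₁, hq₁⟩ := h3 c₁ h₁
    obtain ⟨q₂, hq₂⟩ := h3 c₂ h₂
    rw [LinearIndependent.pair_iff] at hli
    have h5 := hli q₂ (-q₁) (by rw [hq₁, hq₂, smul_smul, smul_smul, ← add_smul]; ring_nf; simp)
    have h6 : c₂ = 0 := by rw [hq₂, h5.1, zero_smul]
    have h7 := hli 0 1 (by rw [h6]; simp)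
    exact one_ne_zero h7.2
  obtain ⟨u₁, hu₁a, hu₁b⟩ := exists_dual_pair hab 1 2
  set S := f.coeff.support.filter (fun c => 1 < u₁ c) with hS
  have hSne : S.Nonempty := ⟨b, by
    rw [hS, Finset.mem_filter, Finsupp.mem_support_iff, hu₁b]
    exact ⟨hb, by norm_num⟩⟩
  obtain ⟨c, hc, hmin⟩ := Finset.exists_min_image S (fun c => (u₀ a - u₀ c) / (u₁ c - 1)) hSne
  rw [hS, Finset.mem_filter] at hc
  set lam : ℚ := (u₀ a - u₀ c) / (u₁ c - 1) with hlam
  have hc1 : 0 < u₁ c - 1 := by linarith [hc.2]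
  have hlam0 : 0 ≤ lam := div_nonneg (by linarith [hmax c hc.1]) hc1.le
  refine ⟨u₀ + lam • u₁, u₀ a + lam, a, c, by linarith, ?_, ?_, Finsupp.mem_support_iff.1 ha,
    Finsupp.mem_support_iff.1 hc.1, ?_, ?_⟩
  · intro x hx
    rw [LinearMap.add_apply, LinearMap.smul_apply, smul_eq_mul]
    have hx0 := hmax x (Finsupp.mem_support_iff.2 hx)
    by_cases hx1 : 1 < u₁ x
    · have h1 := hmin x (by rw [hS, Finset.mem_filter, Finsupp.mem_support_iff]; exact ⟨hx, hx1⟩)
      rw [le_div_iff₀ (by linarith)] at h1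
      linarith
    · push Not at hx1
      nlinarith
  · rintro rfl
    rw [hu₁a] at hc1
    linarith
  · rw [LinearMap.add_apply, LinearMap.smul_apply, smul_eq_mul, hu₁a, mul_one]
  · rw [LinearMap.add_apply, LinearMap.smul_apply, smul_eq_mul]
    have h1 : lam * (u₁ c - 1) = u₀ a - u₀ c := div_mul_cancel₀ _ hc1.ne'
    linarith

/-- **The degree bound for a sum with two independent exponents.** -/
theorem natDegree_lt_card_of_li [CharZero F] {f g : AddMonoidAlgebra F G} {P : Polynomial F}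
    (hf : f = Polynomial.aeval g P) {c₁ c₂ : G} (h₁ : f.coeff c₁ ≠ 0)
    (h₂ : f.coeff c₂ ≠ 0) (hli : LinearIndependent ℚ ![c₁, c₂]) :
    P.natDegree < f.coeff.support.card := by
  obtain ⟨u, q, a, b, hq, hle, hab, ha, hb, hua, hub⟩ := exists_edge h₁ h₂ hli
  exact natDegree_lt_card hf hq hle hab ha hb hua hub

end Pool.Agent.TH711.ES
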