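import Pool.Agent.TH711.ES.Normal

/-!
# Luroth's theorem for algebras of exponential sums
-/

open IntermediateField

namespace Pool.Agent.TH711.ES

variable {F M : Type*} [Field F] [Field M] [Algebra F M]

/-- Luroth's theorem for a field with an embedding into the rational function field. -/
theorem luroth_of_embedding (K : IntermediateField F M) (lft : K →ₐ[F] RatFunc F) {x : M}
    (hx : x ∈ K) (hxF : x ∉ (algebraMap F M).range) : ∃ s, Transcendental F s ∧ K = F⟮s⟯ := by
  set E : IntermediateField F (RatFunc F) := lft.fieldRange with hE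
  have hE0 : E ≠ ⊥ := by
    intro h0
    have h1 : lft ⟨x, hx⟩ ∈ E := ⟨_, rfl⟩
    rw [h0, IntermediateField.mem_bot] at h1
    obtain ⟨c, hc⟩ := h1
    apply hxF
    refine ⟨c, ?_⟩
    have h2 : lft (algebraMap F K c) = lft ⟨x, hx⟩ := by rw [AlgHom.commutes, hc]
    have h3 := lft.toRingHom.injective h2
    exact congrArg (fun y : K => (y : M)) h3
  obtain ⟨s, hs⟩ : RatFunc.Luroth.generator E ∈ E := RatFunc.Luroth.generator_mem
  change lft s = _ at hs
  have ht : Transcendental F (lft s) := by
    rw [hs]; exact RatFunc.Luroth.transcendental_generator hE0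
  have hEs : E = F⟮lft s⟯ := by
    rw [hs]; exact RatFunc.Luroth.eq_adjoin_generator
  refine ⟨(s : M), ?_, le_antisymm ?_ ?_⟩
  · intro halg
    apply ht
    have h1 : IsAlgebraic F s := (isAlgebraic_algHom_iff K.val Subtype.val_injective).1 halg
    exact h1.algHom lft
  · intro y hy
    have h1 : lft ⟨y, hy⟩ ∈ E := ⟨_, rfl⟩
    rw [hEs, mem_adjoin_simple_iff] at h1
    obtain ⟨P, Q, hPQ⟩ := h1
    have h2 : lft ⟨y, hy⟩ = lft (Polynomial.aeval s P / Polynomial.aeval s Q) := by
      rw [hPQ, map_div₀, Polynomial.aeval_algHom_apply, Polynomial.aeval_algHom_apply]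
    have h3 := congrArg (fun z : K => (z : M)) (lft.toRingHom.injective h2)
    change y = ((Polynomial.aeval s P / Polynomial.aeval s Q : K) : M) at h3
    rw [h3, mem_adjoin_simple_iff]
    refine ⟨P, Q, ?_⟩
    have h4 : ∀ R : Polynomial F, ((Polynomial.aeval s R : K) : M) = Polynomial.aeval (s : M) R :=
      fun R => (Polynomial.aeval_algHom_apply K.val s R).symm
    rw [← h4, ← h4]
    rfl
  · rw [adjoin_simple_le_iff]
    exact s.2

/-- A homomorphism which is injective on a finite set. -/
lemma exists_sep {n : ℕ} (T : Finset (Fin n → ℤ)) :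
    ∃ v : (Fin n → ℤ) →+ ℤ, Set.InjOn v T := by
  classical
  set w : {p : T × T // p.1 ≠ p.2} → (Fin n → ℚ) :=
    fun p j => ((p.1.1 : Fin n → ℤ) j : ℚ) - ((p.1.2 : Fin n → ℤ) j : ℚ) with hw
  obtain ⟨φ, hφ⟩ := Module.exists_dual_forall_apply_ne_zero (K := ℚ) w (by
    intro p h0
    apply p.2
    apply Subtype.ext
    ext j
    have := congrFun h0 j
    rw [hw] at this
    simp only [Pi.zero_apply, sub_eq_zero] at this
    exact_mod_cast this)
  set q : Fin n → ℚ := fun j => φ (Pi.single j 1) with hq
  set D : ℕ := ∏ j, (q j).den with hD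
  have hD0 : D ≠ 0 := Finset.prod_ne_zero_iff.2 (fun j _ => (q j).den_ne_zero)
  have ha : ∀ j, ∃ a : ℤ, (a : ℚ) = D * q j := by
    intro j
    obtain ⟨e, he⟩ : (q j).den ∣ D := Finset.dvd_prod_of_mem _ (Finset.mem_univ j)
    refine ⟨e * (q j).num, ?_⟩
    have h1 := Rat.mul_den_eq_num (q j)
    rw [he]
    push_cast
    rw [← h1]
    ring
  choose a ha using ha
  have hφk : ∀ k : Fin n → ℚ, φ k = ∑ j, k j * q j := by
    intro k
    conv_lhs => rw [← Finset.univ_sum_single k]
    rw [map_sum]
    apply Finset.sum_congr rfl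
    intro j _
    have h1 : (Pi.single j (k j) : Fin n → ℚ) = k j • Pi.single j 1 := by
      rw [← Pi.single_smul, smul_eq_mul, mul_one]
    rw [h1, map_smul, smul_eq_mul]
  set v : (Fin n → ℤ) →+ ℤ :=
    { toFun := fun k => ∑ j, k j * a j
      map_zero' := by simp
      map_add' := by
        intro k l
        rw [← Finset.sum_add_distrib]
        exact Finset.sum_congr rfl (fun j _ => by rw [Pi.add_apply]; ring) } with hv
  refine ⟨v, ?_⟩
  intro k hk l hl hkl
  by_contra hne
  have h1 := hφ ⟨(⟨k, hk⟩, ⟨l, hl⟩), fun h => hne (congrArg Subtype.val h)⟩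
  apply h1
  rw [hφk, hw]
  have h2 : (D : ℚ) * ∑ j, ((k j : ℚ) - (l j : ℚ)) * q j = ((v k : ℤ) : ℚ) - ((v l : ℤ) : ℚ) := by
    rw [hv]
    change _ = ((∑ j, k j * a j : ℤ) : ℚ) - ((∑ j, l j * a j : ℤ) : ℚ)
    push_cast
    rw [Finset.mul_sum, ← Finset.sum_sub_distrib]
    apply Finset.sum_congr rfl
    intro j _
    rw [ha]
    ring
  rw [hkl, sub_self] at h2
  exact (mul_eq_zero.1 h2).resolve_left (by exact_mod_cast hD0)

/-- The powers of the variable. -/
lemma isExp_X : IsExp F (fun i : ℤ => (RatFunc.X : RatFunc F) ^ i) where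
  zero := zpow_zero _
  add a b := zpow_add₀ RatFunc.X_ne_zero a b
  li := by
    classical
    rw [linearIndependent_iff']
    intro s g hg i hi
    obtain ⟨N, hN⟩ : ∃ N : ℕ, ∀ j ∈ s, 0 ≤ (N : ℤ) + j := by
      refine ⟨∑ j ∈ s, j.natAbs, fun j hj => ?_⟩
      have := Finset.single_le_sum (f := fun j : ℤ => j.natAbs) (fun _ _ => Nat.zero_le _) hj
      omega
    have h1 : algebraMap (Polynomial F) (RatFunc F)
        (∑ j ∈ s, Polynomial.monomial ((N : ℤ) + j).toNat (g j)) = 0 := by
      rw [map_sum]
      have h2 : (RatFunc.X : RatFunc F) ^ (N : ℤ) *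
          ∑ j ∈ s, g j • (RatFunc.X : RatFunc F) ^ j = 0 := by rw [hg, mul_zero]
      rw [← h2, Finset.mul_sum]
      apply Finset.sum_congr rfl
      intro j hj
      rw [mul_smul_comm, ← zpow_add₀ RatFunc.X_ne_zero, ← Polynomial.C_mul_X_pow_eq_monomial,
        map_mul, map_pow, RatFunc.algebraMap_X, RatFunc.algebraMap_C, Algebra.smul_def]
      congr 1
      rw [← zpow_natCast, Int.toNat_of_nonneg (hN j hj)]
    have h3 : (∑ j ∈ s, Polynomial.monomial ((N : ℤ) + j).toNat (g j)) = 0 := by
      apply RatFunc.algebraMap_injective F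
      rw [h1, map_zero]
    have h4 := congrArg (fun p => Polynomial.coeff p ((N : ℤ) + i).toNat) h3
    simp only [Polynomial.finsetSum_coeff, Polynomial.coeff_zero, Polynomial.coeff_monomial] at h4
    rw [Finset.sum_eq_single i] at h4
    · simpa using h4
    · intro j hj hji
      rw [if_neg]
      intro h5
      have h6 := hN j hj
      have h7 := hN i hi
      apply hji
      omega
    · intro h5; exact absurd hi h5

/-- **Luroth's theorem for algebras of exponential sums.** -/
theorem luroth_lattice {n : ℕ} {m : (Fin n → ℤ) → M} (hm : IsExp F m) {A : Subalgebra F M}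
    (hA : A ≤ hm.ring) {f : M} (hf : f ∈ A) (hfF : f ∉ (algebraMap F M).range)
    (halg : ∀ z ∈ A, IsAlgebraic (Algebra.adjoin F {f}) z) :
    ∃ s, Transcendental F s ∧ IntermediateField.adjoin F (A : Set M) = F⟮s⟯ := by
  classical
  obtain ⟨x, hx⟩ := hA hf
  change hm.ev x = f at hx
  obtain ⟨v, hv⟩ := exists_sep (insert 0 x.coeff.support)
  set hX := isExp_X (F := F)
  -- the homomorphism to the rational functions
  set V : Multiplicative (Fin n → ℤ) →* RatFunc F :=
    { toFun := fun k => (RatFunc.X : RatFunc F) ^ (v k.toAdd)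
      map_one' := by
        change (RatFunc.X : RatFunc F) ^ (v 0) = 1
        rw [map_zero, zpow_zero]
      map_mul' := fun k l => by
        change (RatFunc.X : RatFunc F) ^ (v (k.toAdd + l.toAdd)) = _
        rw [map_add, zpow_add₀ RatFunc.X_ne_zero] } with hV
  set ψ : AddMonoidAlgebra F (Fin n → ℤ) →ₐ[F] RatFunc F := AddMonoidAlgebra.lift F _ _ V with hψ
  have hψx : ∀ y : AddMonoidAlgebra F (Fin n → ℤ),
      ψ y = ∑ k ∈ y.coeff.support, y.coeff k • (RatFunc.X : RatFunc F) ^ (v k) := by
    intro y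
    rw [hψ, AddMonoidAlgebra.lift_apply]
    rfl
  -- the image of `f` is transcendental
  have hx0 : ∃ k ∈ x.coeff.support, k ≠ 0 := by
    by_contra hno
    push Not at hno
    apply hfF
    refine ⟨x.coeff 0, ?_⟩
    rw [← hx, hm.ev_apply, Finsupp.linearCombination_apply, Finsupp.sum,
      Finset.sum_subset (s₂ := {0}) (fun k hk => Finset.mem_singleton.2 (hno k hk)) (by
        intro k _ hk
        rw [Finsupp.notMem_support_iff.1 hk, zero_smul]), Finset.sum_singleton, hm.zero,
      Algebra.smul_def, mul_one]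
  have htx : Transcendental F (ψ x) := by
    apply RatFunc.transcendental_of_ne_C
    rintro ⟨c, hc⟩
    obtain ⟨k₀, hk₀, hk₀0⟩ := hx0
    set T : Finset (Fin n → ℤ) := insert 0 x.coeff.support with hT
    have hli : LinearIndependent F (fun k : T => (RatFunc.X : RatFunc F) ^ (v (k : Fin n → ℤ))) :=
      hX.li.comp (fun k : T => v (k : Fin n → ℤ)) (fun k l hkl => Subtype.ext (hv k.2 l.2 hkl))
    rw [Fintype.linearIndependent_iff] at hli
    have h1 := hli (fun k => x.coeff k - if (k : Fin n → ℤ) = 0 then c else 0) (by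
      have e1 : ∑ k : T, (x.coeff (k : Fin n → ℤ) - if (k : Fin n → ℤ) = 0 then c else 0) •
          (RatFunc.X : RatFunc F) ^ (v (k : Fin n → ℤ)) =
          ∑ k ∈ T, (x.coeff k - if k = 0 then c else 0) • (RatFunc.X : RatFunc F) ^ (v k) :=
        Finset.sum_coe_sort T (fun k => (x.coeff k - if k = 0 then c else 0) •
          (RatFunc.X : RatFunc F) ^ (v k))
      rw [e1]
      simp only [sub_smul]
      rw [Finset.sum_sub_distrib]
      have e2 : ∑ k ∈ T, x.coeff k • (RatFunc.X : RatFunc F) ^ (v k) = ψ x := by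
        rw [hψx]
        symm
        apply Finset.sum_subset (Finset.subset_insert _ _)
        intro k _ hk
        rw [Finsupp.notMem_support_iff.1 hk, zero_smul]
      have e3 : ∑ k ∈ T, (if k = 0 then c else 0) • (RatFunc.X : RatFunc F) ^ (v k) =
          RatFunc.C c := by
        rw [Finset.sum_eq_single 0]
        · rw [if_pos rfl, map_zero, zpow_zero, Algebra.smul_def, mul_one]
          rfl
        · intro k _ hk
          rw [if_neg hk, zero_smul]
        · intro h
          exact absurd (Finset.mem_insert_self _ _) h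
      rw [e2, e3, hc, sub_self]) ⟨k₀, Finset.mem_insert_of_mem hk₀⟩
    simp only [if_neg hk₀0, sub_zero] at h1
    exact (Finsupp.mem_support_iff.1 hk₀) h1
  -- the embedding of the algebra
  set e := AlgEquiv.ofInjective hm.ev hm.ev_injective with he
  set Ψ : Algebra.adjoin F (A : Set M) →ₐ[F] RatFunc F :=
    ψ.comp ((e.symm : hm.ev.range →ₐ[F] _).comp ((Subalgebra.inclusion hA).comp
      (Subalgebra.inclusion (Algebra.adjoin_eq A).le))) with hΨ
  have hΨ' : ∀ (z : Algebra.adjoin F (A : Set M)) (y : AddMonoidAlgebra F (Fin n → ℤ)),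
      (z : M) = hm.ev y → Ψ z = ψ y := by
    intro z y hzy
    rw [hΨ]
    change ψ (e.symm _) = ψ y
    congr 1
    rw [AlgEquiv.symm_apply_eq]
    exact Subtype.ext hzy
  have hfA : f ∈ Algebra.adjoin F (A : Set M) := Algebra.subset_adjoin hf
  have hΨf : Ψ ⟨f, hfA⟩ = ψ x := hΨ' _ _ hx.symm
  have hΨinj : Function.Injective Ψ := by
    rw [injective_iff_map_eq_zero]
    intro z hz
    by_contra hz0
    have hzA : (z : M) ∈ A := (Algebra.adjoin_eq A).le z.2
    obtain ⟨p, hp0, hp⟩ := halg _ hzA
    -- the coefficients are polynomials in `f`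
    have hle : Algebra.adjoin F {f} ≤ Algebra.adjoin F (A : Set M) :=
      Algebra.adjoin_mono (by simpa using hf)
    let alg : Algebra (Algebra.adjoin F {f}) (Algebra.adjoin F (A : Set M)) :=
      (Subalgebra.inclusion hle).toAlgebra
    have hz' : IsAlgebraic (Algebra.adjoin F {f}) z := by
      refine ⟨p, hp0, ?_⟩
      apply Subtype.val_injective
      change ((Polynomial.aeval z p : Algebra.adjoin F (A : Set M)) : M) = 0
      rw [← hp, Polynomial.aeval_def, Polynomial.aeval_def]
      have := Polynomial.hom_eval₂ p (algebraMap (Algebra.adjoin F {f})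
        (Algebra.adjoin F (A : Set M))) (Algebra.adjoin F (A : Set M)).val.toRingHom z
      exact this
    have h1 := Ideal.comap_ne_bot_of_algebraic_mem (R := Algebra.adjoin F {f})
      (I := RingHom.ker Ψ) hz0 hz hz'
    apply h1
    rw [eq_bot_iff]
    intro r hr
    rw [Ideal.mem_comap, RingHom.mem_ker] at hr
    rw [Ideal.mem_bot]
    obtain ⟨P, hP⟩ := (Algebra.adjoin_singleton_eq_range_aeval F f).le r.2
    have hP' : Polynomial.aeval f P = (r : M) := hP
    have h2 : Polynomial.aeval (⟨f, hfA⟩ : Algebra.adjoin F (A : Set M)) P =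
        algebraMap (Algebra.adjoin F {f}) (Algebra.adjoin F (A : Set M)) r := by
      apply Subtype.val_injective
      have h3 := Polynomial.aeval_algHom_apply (Algebra.adjoin F (A : Set M)).val
        (⟨f, hfA⟩ : Algebra.adjoin F (A : Set M)) P
      change Polynomial.aeval f P = _ at h3
      exact h3.symm.trans hP'
    have h4 : Polynomial.aeval (ψ x) P = 0 := by
      rw [← hΨf, Polynomial.aeval_algHom_apply, h2]
      exact hr
    have h5 : P = 0 := by
      by_contra h6
      exact htx ⟨P, h6, h4⟩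
    apply Subtype.val_injective
    rw [← hP', h5, map_zero]
    rfl
  have hK : ∃ lft : IntermediateField.adjoin F (A : Set M) →ₐ[F] RatFunc F, True := by
    open scoped IntermediateField.algebraAdjoinAdjoin in
    exact ⟨IsFractionRing.liftAlgHom (g := Ψ) hΨinj, trivial⟩
  obtain ⟨lft, -⟩ := hK
  exact luroth_of_embedding _ lft (subset_adjoin F _ hf) hfF

end Pool.Agent.TH711.ES
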