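import Mathlib

/-!
# Integrally closed subalgebras of genus zero
-/

open Polynomial IntermediateField

namespace Pool.Agent.TH711.ES

variable {F M : Type*} [Field F] [Field M] [Algebra F M]

/-- If `f Q(x) = P(x)` with `deg Q < deg P` then `x` is integral over every algebra
containing `f`. -/
lemma isIntegral_of_eq {A : Subalgebra F M} {f x : M} (hf : f ∈ A) {P Q : F[X]}
    (hdeg : Q.natDegree < P.natDegree) (h : f * aeval x Q = aeval x P) : IsIntegral A x := by
  have hP0 : P ≠ 0 := by rintro rfl; simp at hdeg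
  set c := P.leadingCoeff⁻¹ with hc
  have hc0 : c ≠ 0 := inv_ne_zero (leadingCoeff_ne_zero.2 hP0)
  set P' : F[X] := P * C c with hP'
  set Q' : F[X] := Q * C c with hQ'
  have hmon : P'.Monic := monic_mul_leadingCoeff_inv hP0
  have hPdeg : P'.natDegree = P.natDegree := natDegree_mul_C hc0
  have hQdeg : Q'.natDegree = Q.natDegree := natDegree_mul_C hc0
  refine ⟨P'.map (algebraMap F A) - C ⟨f, hf⟩ * Q'.map (algebraMap F A), ?_, ?_⟩
  · apply Monic.sub_of_left (hmon.map _)
    refine lt_of_le_of_lt (degree_le_of_natDegree_le (n := Q.natDegree) ?_) ?_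
    · refine (natDegree_C_mul_le _ _).trans ?_
      rw [← hQdeg]
      exact natDegree_map_le
    · rw [hmon.degree_map, degree_eq_natDegree hmon.ne_zero, hPdeg]
      exact_mod_cast hdeg
  · rw [eval₂_sub, eval₂_mul, eval₂_C, ← aeval_def, ← aeval_def, aeval_map_algebraMap,
      aeval_map_algebraMap]
    have h1 : (algebraMap A M) ⟨f, hf⟩ = f := rfl
    rw [h1, hP', hQ', map_mul, map_mul, aeval_C, ← mul_assoc, h, sub_self]

/-- If `f Q(x) = P(x)` with `Q(0) = 0 ≠ P(0)` then `1 / x` is integral over every algebra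
containing `f`. -/
lemma isIntegral_inv_of_eq {A : Subalgebra F M} {f x : M} (hf : f ∈ A) {P Q : F[X]}
    (hP : P.eval 0 ≠ 0) (hQ : Q.eval 0 = 0) (h : f * aeval x Q = aeval x P) :
    x ≠ 0 ∧ IsIntegral A x⁻¹ := by
  have hx : x ≠ 0 := by
    rintro rfl
    have h1 : ∀ R : F[X], aeval (0 : M) R = algebraMap F M (R.eval 0) := by
      intro R
      rw [← map_zero (algebraMap F M), aeval_algebraMap_apply]
      simp
    rw [h1, h1, hQ, map_zero, mul_zero] at h
    exact hP ((map_eq_zero _).1 h.symm)
  refine ⟨hx, ?_⟩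
  set N := max P.natDegree Q.natDegree with hN
  have hPN : P.natDegree ≤ N := le_max_left _ _
  have hQN : Q.natDegree ≤ N := le_max_right _ _
  have hN0 : 0 < N := by
    rcases Nat.eq_zero_or_pos N with h0 | h0
    · exfalso
      have hQc : Q = C (Q.eval 0) := by
        rw [← coeff_zero_eq_eval_zero]
        exact eq_C_of_natDegree_eq_zero (by omega)
      have hPc : P = C (P.eval 0) := by
        rw [← coeff_zero_eq_eval_zero]
        exact eq_C_of_natDegree_eq_zero (by omega)
      rw [hQ] at hQc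
      rw [hQc, hPc, map_zero, map_zero, mul_zero, aeval_C] at h
      exact hP ((map_eq_zero _).1 h.symm)
    · exact h0
  let _ : Invertible x := invertibleOfNonzero hx
  have hinv : ⅟x = x⁻¹ := invOf_eq_inv x
  have e1 := eval₂_reflect_mul_pow (algebraMap F M) x N P hPN
  have e2 := eval₂_reflect_mul_pow (algebraMap F M) x N Q hQN
  rw [hinv] at e1 e2
  have hcoefP : (reflect N P).coeff N = P.eval 0 := by
    rw [coeff_reflect, revAt_le le_rfl, Nat.sub_self, coeff_zero_eq_eval_zero]
  have hcoefQ : (reflect N Q).coeff N = 0 := by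
    rw [coeff_reflect, revAt_le le_rfl, Nat.sub_self, coeff_zero_eq_eval_zero, hQ]
  have hle : ∀ R : F[X], R.natDegree ≤ N → (reflect N R).natDegree ≤ N := by
    intro R hR
    rw [natDegree_le_iff_coeff_eq_zero]
    intro i hi
    rw [coeff_reflect, revAt_eq_self_of_lt hi]
    exact coeff_eq_zero_of_natDegree_lt (by omega)
  have hdP : (reflect N P).natDegree = N :=
    le_antisymm (hle P hPN) (le_natDegree_of_ne_zero (by rw [hcoefP]; exact hP))
  have hdQ : (reflect N Q).natDegree < N := by
    rcases lt_or_eq_of_le (hle Q hQN) with h1 | h1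
    · exact h1
    · exfalso
      have h2 : (reflect N Q).leadingCoeff = 0 := by rw [leadingCoeff, h1, hcoefQ]
      rw [leadingCoeff_eq_zero] at h2
      rw [h2, natDegree_zero] at h1
      omega
  apply isIntegral_of_eq hf (P := reflect N P) (Q := reflect N Q) (by omega)
  rw [aeval_def, aeval_def]
  have hxN : x ^ N ≠ 0 := pow_ne_zero _ hx
  apply mul_right_cancel₀ hxN
  rw [mul_assoc, e1, e2]
  exact h

/-- A representation by coprime polynomials. -/
lemma exists_coprime {s : M} (hs : Transcendental F s) {g : M} (hg : g ∈ F⟮s⟯) :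
    ∃ P Q : F[X], IsCoprime P Q ∧ aeval s Q ≠ 0 ∧ g * aeval s Q = aeval s P := by
  obtain ⟨P, Q, rfl⟩ := mem_adjoin_simple_iff F _ |>.1 hg
  by_cases hQ : aeval s Q = 0
  · refine ⟨0, 1, isCoprime_zero_left.2 isUnit_one, by simp, ?_⟩
    rw [hQ, div_zero, zero_mul, map_zero]
  · classical
    have hQ0 : Q ≠ 0 := by rintro rfl; simp at hQ
    obtain ⟨P', hP'⟩ := EuclideanDomain.gcd_dvd_left P Q
    obtain ⟨Q', hQ'⟩ := EuclideanDomain.gcd_dvd_right P Q
    set d := EuclideanDomain.gcd P Q with hd
    have hd0 : d ≠ 0 := by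
      intro h0
      rw [h0, zero_mul] at hQ'
      exact hQ0 hQ'
    have hcop : IsCoprime P' Q' := by
      obtain ⟨a, b, hab⟩ : ∃ a b, d = P * a + Q * b := ⟨_, _, EuclideanDomain.gcd_eq_gcd_ab P Q⟩
      refine ⟨a, b, ?_⟩
      apply mul_left_cancel₀ hd0
      calc d * (a * P' + b * Q') = (d * P') * a + (d * Q') * b := by ring
        _ = P * a + Q * b := by rw [← hP', ← hQ']
        _ = d * 1 := by rw [← hab, mul_one]
    have hds : aeval s d ≠ 0 := by
      intro h0
      exact hd0 ((transcendental_iff.1 hs) d h0)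
    have hQ's : aeval s Q' ≠ 0 := by
      intro h0
      apply hQ
      rw [hQ', map_mul, h0, mul_zero]
    refine ⟨P', Q', hcop, hQ's, ?_⟩
    conv_lhs => rw [hP', hQ']
    rw [map_mul, map_mul]
    field_simp

lemma transcendental_sub {s : M} (hs : Transcendental F s) (p : F) :
    Transcendental F (s - algebraMap F M p) := by
  intro h
  apply hs
  have := h.add (isAlgebraic_algebraMap (R := F) (A := M) p)
  rwa [sub_add_cancel] at this

lemma aeval_shift (s : M) (p : F) (P : F[X]) :
    aeval (s - algebraMap F M p) (P.comp (X + C p)) = aeval s P := by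
  rw [aeval_comp, map_add, aeval_X, aeval_C, sub_add_cancel]

/-- The inverse of `s - p` if `p` is a root of the denominator. -/
lemma inv_sub_mem {A : Subalgebra F M} {s : M} (hs : Transcendental F s) (hsA : s ∈ A) {g : M}
    (hg : g ∈ A) {P Q : F[X]} (hcop : IsCoprime P Q) (hQs : aeval s Q ≠ 0)
    (h : g * aeval s Q = aeval s P) {p : F} (hp : Q.IsRoot p) :
    (s - algebraMap F M p)⁻¹ ∈ A := by
  have hpol : ∀ R : F[X], aeval s R ∈ A := fun R => by
    have := Algebra.adjoin_mono (R := F) (A := M) (s := {s}) (t := (A : Set M)) (by simpa using hsA)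
    rw [Algebra.adjoin_eq] at this
    exact this (aeval_mem_adjoin_singleton F s)
  obtain ⟨U, V, hUV⟩ := hcop
  have h1 : (aeval s Q)⁻¹ ∈ A := by
    have e := congrArg (aeval s) hUV
    rw [map_add, map_mul, map_mul, map_one] at e
    have e2 : (aeval s Q)⁻¹ = aeval s U * g + aeval s V := by
      apply mul_right_cancel₀ hQs
      rw [inv_mul_cancel₀ hQs, add_mul, mul_assoc, h, e]
    rw [e2]
    exact A.add_mem (A.mul_mem (hpol U) hg) (hpol V)
  obtain ⟨R, hR⟩ := dvd_iff_isRoot.2 hp
  have hsp : s - algebraMap F M p ≠ 0 := by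
    intro h0
    exact transcendental_sub hs p (by rw [h0]; exact isAlgebraic_zero)
  have e3 : (s - algebraMap F M p)⁻¹ = aeval s R * (aeval s Q)⁻¹ := by
    have e4 : aeval s Q = (s - algebraMap F M p) * aeval s R := by
      rw [hR, map_mul, map_sub, aeval_X, aeval_C]
    have hR0 : aeval s R ≠ 0 := by
      intro h0
      rw [h0, mul_zero] at e4
      exact hQs e4
    rw [e4]
    field_simp
  rw [e3]
  exact A.mul_mem (hpol R) h1

variable [IsAlgClosed F]

lemma eq_C_of_no_root {Q : F[X]} (h0 : Q ≠ 0) (h : ∀ p, ¬ Q.IsRoot p) : ∃ c, c ≠ 0 ∧ Q = C c := by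
  have hdeg : Q.degree = 0 := by
    by_contra h1
    obtain ⟨p, hp⟩ := IsAlgClosed.exists_root Q h1
    exact h p hp
  have h1 := eq_C_of_degree_eq_zero hdeg
  refine ⟨Q.coeff 0, ?_, h1⟩
  intro h2
  rw [h2, map_zero] at h1
  exact h0 h1

/-- A generator of the fraction field inside the algebra. -/
theorem exists_generator {A : Subalgebra F M} {s : M} (hs : Transcendental F s)
    (hK : IntermediateField.adjoin F (A : Set M) = F⟮s⟯)
    (hN : ∀ w ∈ IntermediateField.adjoin F (A : Set M), IsIntegral A w → w ∈ A) {f : M}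
    (hf : f ∈ A) (hfF : f ∉ (algebraMap F M).range) :
    ∃ s' ∈ A, Transcendental F s' ∧ F⟮s'⟯ = F⟮s⟯ := by
  have hfK : f ∈ F⟮s⟯ := by rw [← hK]; exact subset_adjoin F _ hf
  have hsK : s ∈ IntermediateField.adjoin F (A : Set M) := by rw [hK]; exact mem_adjoin_simple_self F s
  obtain ⟨P, Q, hcop, hQs, h⟩ := exists_coprime hs hfK
  have hQ0 : Q ≠ 0 := by rintro rfl; simp at hQs
  by_cases hroot : ∃ p, Q.IsRoot p
  · obtain ⟨p, hp⟩ := hroot
    have hPp : P.eval p ≠ 0 := by
      intro hPp
      obtain ⟨U, V, hUV⟩ := hcop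
      have := congrArg (Polynomial.eval p) hUV
      rw [eval_add, eval_mul, eval_mul, hPp, hp.eq_zero, mul_zero, mul_zero, add_zero,
        eval_one] at this
      exact zero_ne_one this
    have h2 := isIntegral_inv_of_eq (A := A) (x := s - algebraMap F M p) hf
      (P := P.comp (X + C p)) (Q := Q.comp (X + C p)) (by simpa using hPp)
      (by simpa using hp.eq_zero) (by rw [aeval_shift, aeval_shift]; exact h)
    obtain ⟨hne, hint⟩ := h2
    have hpK : algebraMap F M p ∈ IntermediateField.adjoin F (A : Set M) :=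
      (IntermediateField.adjoin F (A : Set M)).algebraMap_mem p
    refine ⟨(s - algebraMap F M p)⁻¹, hN _ (inv_mem (sub_mem hsK hpK)) hint, ?_, ?_⟩
    · intro halg
      have := halg.inv
      rw [inv_inv] at this
      exact transcendental_sub hs p this
    · apply le_antisymm
      · rw [adjoin_simple_le_iff]
        exact inv_mem (sub_mem (mem_adjoin_simple_self F s) (F⟮s⟯.algebraMap_mem p))
      · rw [adjoin_simple_le_iff]
        have h3 : s = ((s - algebraMap F M p)⁻¹)⁻¹ + algebraMap F M p := by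
          rw [inv_inv, sub_add_cancel]
        rw [h3]
        refine add_mem (inv_mem ?_) (_root_.algebraMap_mem _ p)
        rw [← h3]
        exact mem_adjoin_simple_self F _
  · push Not at hroot
    obtain ⟨c, hc, rfl⟩ := eq_C_of_no_root hQ0 hroot
    refine ⟨s, hN _ hsK (isIntegral_of_eq hf (P := P) (Q := C c) ?_ h), hs, rfl⟩
    rw [natDegree_C]
    rcases Nat.eq_zero_or_pos P.natDegree with h0 | h0
    · exfalso
      apply hfF
      rw [eq_C_of_natDegree_eq_zero h0, aeval_C, aeval_C] at h
      refine ⟨P.coeff 0 / c, ?_⟩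
      have hc' : algebraMap F M c ≠ 0 := (_root_.map_ne_zero _).2 hc
      rw [map_div₀, ← h]
      field_simp
    · exact h0

/-- **The structure of integrally closed subalgebras of genus zero.** -/
theorem structure_of_genus_zero {A : Subalgebra F M} {s : M} (hs : Transcendental F s)
    (hK : IntermediateField.adjoin F (A : Set M) = F⟮s⟯)
    (hN : ∀ w ∈ IntermediateField.adjoin F (A : Set M), IsIntegral A w → w ∈ A) {f : M}
    (hf : f ∈ A) (hfF : f ∉ (algebraMap F M).range) {G : Type*} [Zero G] (m : G → M)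
    (hm0 : m 0 = 1)
    (hU : ∀ z ∈ A, z ≠ 0 → z⁻¹ ∈ A → ∃ (c : F) (α : G), z = algebraMap F M c * m α)
    (hlin : ∀ (α β : G) (c q : F), α ≠ 0 → q ≠ 0 →
      m α - algebraMap F M q ≠ algebraMap F M c * m β) :
    (∃ s' ∈ A, Transcendental F s' ∧ A = Algebra.adjoin F {s'}) ∨
      ∃ α, α ≠ 0 ∧ m α ∈ A ∧ (m α)⁻¹ ∈ A ∧ A = Algebra.adjoin F {m α, (m α)⁻¹} := by
  obtain ⟨x, hxA, hx, hxs⟩ := exists_generator hs hK hN hf hfF
  rw [← hxs] at hK
  by_cases hp : ∃ p : F, (x - algebraMap F M p)⁻¹ ∈ A
  · obtain ⟨p, hp⟩ := hp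
    have hxp : x - algebraMap F M p ∈ A := A.sub_mem hxA (A.algebraMap_mem p)
    have hne : x - algebraMap F M p ≠ 0 := by
      intro h0
      exact transcendental_sub hx p (by rw [h0]; exact isAlgebraic_zero)
    obtain ⟨c, α, hcα⟩ := hU _ hxp hne hp
    have hc : c ≠ 0 := by
      rintro rfl
      rw [map_zero, zero_mul] at hcα
      exact hne hcα
    have hc' : algebraMap F M c ≠ 0 := (_root_.map_ne_zero _).2 hc
    have hα : α ≠ 0 := by
      rintro rfl
      rw [hm0, mul_one] at hcα
      exact transcendental_sub hx p (by rw [hcα]; exact isAlgebraic_algebraMap c)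
    have hmα : m α = algebraMap F M c⁻¹ * (x - algebraMap F M p) := by
      rw [hcα, ← mul_assoc, ← map_mul, inv_mul_cancel₀ hc, map_one, one_mul]
    have hmA : m α ∈ A := by rw [hmα]; exact A.mul_mem (A.algebraMap_mem _) hxp
    have hmiA : (m α)⁻¹ ∈ A := by
      rw [hmα, mul_inv, ← map_inv₀, inv_inv]
      exact A.mul_mem (A.algebraMap_mem _) hp
    have hmt : Transcendental F (m α) := by
      intro halg
      apply transcendental_sub hx p
      rw [hcα]
      exact (isAlgebraic_algebraMap c).mul halg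
    have hKm : F⟮m α⟯ = F⟮x⟯ := by
      apply le_antisymm
      · rw [adjoin_simple_le_iff, hmα]
        exact mul_mem (_root_.algebraMap_mem _ _) (sub_mem (mem_adjoin_simple_self F x)
          (_root_.algebraMap_mem _ _))
      · rw [adjoin_simple_le_iff]
        have h3 : x = algebraMap F M c * m α + algebraMap F M p := by
          rw [← hcα, sub_add_cancel]
        rw [h3]
        exact add_mem (mul_mem (_root_.algebraMap_mem _ _) (mem_adjoin_simple_self F _))
          (_root_.algebraMap_mem _ _)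
    refine Or.inr ⟨α, hα, hmA, hmiA, le_antisymm ?_ ?_⟩
    · intro g hg
      have hgK : g ∈ F⟮m α⟯ := by rw [hKm, ← hK]; exact subset_adjoin F _ hg
      obtain ⟨P, Q, hcop, hQs, h⟩ := exists_coprime hmt hgK
      have hQ0 : Q ≠ 0 := by rintro rfl; simp at hQs
      have hroots : ∀ q, Q.IsRoot q → q = 0 := by
        intro q hq
        by_contra hq0
        have h1 := inv_sub_mem hmt hmA hg hcop hQs h hq
        have h2 : m α - algebraMap F M q ∈ A := A.sub_mem hmA (A.algebraMap_mem q)
        obtain ⟨c', β, hβ⟩ := hU _ h2 (by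
          intro h0
          exact transcendental_sub hmt q (by rw [h0]; exact isAlgebraic_zero)) h1
        exact hlin α β c' q hα hq0 hβ
      obtain ⟨Q', hQ', hnd⟩ := exists_eq_pow_rootMultiplicity_mul_and_not_dvd Q hQ0 0
      rw [C_0, sub_zero] at hQ' hnd
      set k := Q.rootMultiplicity 0
      have hQ'0 : Q' ≠ 0 := by
        rintro rfl
        rw [mul_zero] at hQ'
        exact hQ0 hQ'
      obtain ⟨c', hc'0, hc'C⟩ := eq_C_of_no_root hQ'0 (by
        intro q hq
        have h1 : Q.IsRoot q := by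
          rw [hQ', IsRoot.def, eval_mul, hq.eq_zero, mul_zero]
        have h2 := hroots q h1
        subst h2
        apply hnd
        have := dvd_iff_isRoot.2 hq
        rwa [C_0, sub_zero] at this)
      have hm1 : m α ≠ 0 := by
        intro h0
        exact hmt (by rw [h0]; exact isAlgebraic_zero)
      have e1 : g = aeval (m α) P * (algebraMap F M c'⁻¹ * ((m α)⁻¹) ^ k) := by
        rw [← h, hQ', hc'C, map_mul, map_pow, aeval_X, aeval_C, map_inv₀, inv_pow]
        have h5 : algebraMap F M c' ≠ 0 := (_root_.map_ne_zero _).2 hc'0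
        field_simp
      rw [e1]
      have hmem : m α ∈ Algebra.adjoin F {m α, (m α)⁻¹} := Algebra.subset_adjoin (by simp)
      have hmem' : (m α)⁻¹ ∈ Algebra.adjoin F {m α, (m α)⁻¹} := Algebra.subset_adjoin (by simp)
      refine Subalgebra.mul_mem _ ?_ (Subalgebra.mul_mem _ (Subalgebra.algebraMap_mem _ _)
        (Subalgebra.pow_mem _ hmem' k))
      have h6 : Algebra.adjoin F {m α} ≤ Algebra.adjoin F {m α, (m α)⁻¹} :=
        Algebra.adjoin_mono (by simp)
      exact h6 (aeval_mem_adjoin_singleton F _)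
    · apply Algebra.adjoin_le
      rintro y (rfl | rfl)
      · exact hmA
      · exact hmiA
  · push Not at hp
    refine Or.inl ⟨x, hxA, hx, le_antisymm ?_ ?_⟩
    · intro g hg
      have hgK : g ∈ F⟮x⟯ := by rw [← hK]; exact subset_adjoin F _ hg
      obtain ⟨P, Q, hcop, hQs, h⟩ := exists_coprime hx hgK
      have hQ0 : Q ≠ 0 := by rintro rfl; simp at hQs
      obtain ⟨c, hc, rfl⟩ := eq_C_of_no_root hQ0
        (fun p hroot => hp p (inv_sub_mem hx hxA hg hcop hQs h hroot))
      have hc' : algebraMap F M c ≠ 0 := (_root_.map_ne_zero _).2 hc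
      have e1 : g = aeval x (P * C c⁻¹) := by
        rw [map_mul, aeval_C, ← h, aeval_C, map_inv₀]
        field_simp
      rw [e1]
      exact aeval_mem_adjoin_singleton F _
    · apply Algebra.adjoin_le
      rintro y rfl
      exact hxA

end Pool.Agent.TH711.ES
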