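import Pool.Agent.TH711.ES.Normal
import Pool.Agent.TH711.ES.Emb
import Pool.Agent.TH711.ES.Edge3

/-!
# Exponential sums in an algebraically closed field of transcendence degree one
-/

open IntermediateField

namespace Pool.Agent.TH711.ES

variable {F M G : Type*} [Field F] [CharZero F] [IsAlgClosed F] [Field M] [Algebra F M]
  [AddCommGroup G] [Module ℚ G]

section Aux

omit [CharZero F] [IsAlgClosed F] [AddCommGroup G] [Module ℚ G]

/-- An element of the field generated by a subalgebra is a quotient. -/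
lemma mem_adjoin_div {A : Subalgebra F M} {w : M}
    (hw : w ∈ IntermediateField.adjoin F (A : Set M)) :
    ∃ a ∈ A, ∃ b ∈ A, w = a / b := by
  rw [IntermediateField.mem_adjoin_iff_div] at hw
  obtain ⟨a, ha, b, hb, h⟩ := hw
  rw [Algebra.adjoin_eq] at ha hb
  exact ⟨a, ha, b, hb, h⟩

lemma isIntegral_of_le {A B : Subalgebra F M} (h : A ≤ B) {w : M} (hw : IsIntegral A w) :
    IsIntegral B w := by
  obtain ⟨p, hp, hpw⟩ := hw
  refine ⟨p.map (Subalgebra.inclusion h).toRingHom, hp.map _, ?_⟩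
  rw [Polynomial.eval₂_map]
  exact hpw

end Aux

variable {m : G → M} (hm : IsExp F m) (N : IntermediateField F M)

/-- The structure of the part of a lattice algebra. -/
theorem lattice_structure {n : ℕ} {γ : (Fin n → ℤ) →+ G} (hγ : Function.Injective γ)
    (htr : ∀ f ∈ N, f ∉ (algebraMap F M).range → ∀ z ∈ N, IsAlgebraic (Algebra.adjoin F {f}) z)
    {f : M} (hf : f ∈ (hm.comp γ hγ).ring) (hfN : f ∈ N) (hfF : f ∉ (algebraMap F M).range) :
    (∃ s ∈ (hm.comp γ hγ).ring ⊓ N.toSubalgebra, Transcendental F s ∧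
      (hm.comp γ hγ).ring ⊓ N.toSubalgebra = Algebra.adjoin F {s}) ∨
    ∃ β, β ≠ 0 ∧ m (γ β) ∈ N ∧
      (hm.comp γ hγ).ring ⊓ N.toSubalgebra = Algebra.adjoin F {m (γ β), (m (γ β))⁻¹} := by
  set A := (hm.comp γ hγ).ring ⊓ N.toSubalgebra with hA
  have hfA : f ∈ A := ⟨hf, hfN⟩
  obtain ⟨s, hs, hK⟩ := luroth_lattice (hm.comp γ hγ) (A := A) inf_le_left hfA hfF
    (fun z hz => htr f hfN hfF z hz.2)
  have hN : ∀ w ∈ IntermediateField.adjoin F (A : Set M), IsIntegral A w → w ∈ A := by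
    intro w hw hint
    obtain ⟨a, ha, b, hb, rfl⟩ := mem_adjoin_div hw
    refine ⟨?_, N.div_mem ha.2 hb.2⟩
    by_cases hb0 : b = 0
    · rw [hb0, div_zero]; exact Subalgebra.zero_mem _
    · exact normal_lat (hm.comp γ hγ) ha.1 hb.1 hb0 (div_mul_cancel₀ _ hb0)
        (isIntegral_of_le inf_le_left hint)
  rcases structure_of_genus_zero hs hK hN hfA hfF (fun a => m (γ a)) (hm.comp γ hγ).zero
    (fun z hz hz0 hzi => (hm.comp γ hγ).unit_mem hz.1 hzi.1 hz0)
    (fun α β c q hα hq => (hm.comp γ hγ).lin α β c q hα hq) with h | ⟨β, h1, h2, -, h3⟩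
  · exact Or.inl h
  · exact Or.inr ⟨β, h1, h2.2, h3⟩

/-- The values at the multiples of an exponent. -/
lemma laurent_mem {β : G} {z : M} (hz : z ∈ Algebra.adjoin F {m β, (m β)⁻¹}) :
    ∃ x : AddMonoidAlgebra F G, hm.ev x = z ∧ ∀ a, x.coeff a ≠ 0 → ∃ k : ℤ, a = k • β := by
  classical
  induction hz using Algebra.adjoin_induction with
  | mem z hz =>
    rcases hz with rfl | hz
    · refine ⟨AddMonoidAlgebra.single β 1, by rw [hm.ev_single, map_one, one_mul], ?_⟩
      intro a ha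
      rw [AddMonoidAlgebra.coeff_single, Finsupp.single_apply] at ha
      by_cases h : β = a
      · exact ⟨1, by rw [one_smul, h]⟩
      · rw [if_neg h] at ha; exact absurd rfl ha
    · rw [Set.mem_singleton_iff] at hz
      refine ⟨AddMonoidAlgebra.single (-β) 1, by rw [hm.ev_single, map_one, one_mul, hm.neg, hz], ?_⟩
      intro a ha
      rw [AddMonoidAlgebra.coeff_single, Finsupp.single_apply] at ha
      by_cases h : -β = a
      · exact ⟨-1, by rw [neg_smul, one_smul, h]⟩
      · rw [if_neg h] at ha; exact absurd rfl ha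
  | algebraMap r =>
    refine ⟨algebraMap F _ r, hm.ev.commutes r, ?_⟩
    intro a ha
    rw [AddMonoidAlgebra.coe_algebraMap] at ha
    simp only [Function.comp_apply, Algebra.algebraMap_self, RingHom.id_apply] at ha
    rw [AddMonoidAlgebra.coeff_single, Finsupp.single_apply] at ha
    by_cases h : 0 = a
    · exact ⟨0, by rw [zero_smul, h]⟩
    · rw [if_neg h] at ha; exact absurd rfl ha
  | add z w _ _ hz hw =>
    obtain ⟨x, hx, hx'⟩ := hz
    obtain ⟨y, hy, hy'⟩ := hw
    refine ⟨x + y, by rw [map_add, hx, hy], ?_⟩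
    intro a ha
    by_cases h : x.coeff a = 0
    · apply hy' a
      intro h'
      rw [AddMonoidAlgebra.coeff_add, Finsupp.add_apply, h, h', add_zero] at ha
      exact ha rfl
    · exact hx' a h
  | mul z w _ _ hz hw =>
    obtain ⟨x, hx, hx'⟩ := hz
    obtain ⟨y, hy, hy'⟩ := hw
    refine ⟨x * y, by rw [map_mul, hx, hy], ?_⟩
    intro a ha
    obtain ⟨b, c, hb, hc, rfl⟩ := mul_coeff_ne ha
    obtain ⟨k, rfl⟩ := hx' b hb
    obtain ⟨l, rfl⟩ := hy' c hc
    exact ⟨k + l, by rw [add_smul]⟩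

end Pool.Agent.TH711.ES
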