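import Pool.Agent.TH711.ES.Main

/-!
# Exponential sums on a line
-/

open IntermediateField Polynomial

namespace Pool.Agent.TH711.ES

variable {F M G : Type*} [Field F] [Field M] [Algebra F M] [AddCommGroup G]

variable {m : G → M} (hm : IsExp F m) (N : IntermediateField F M)

include hm

lemma eq_zero_of_mem_range {α : G} (h : m α ∈ (algebraMap F M).range) : α = 0 := by
  classical
  obtain ⟨c, hc⟩ := h
  have h1 : AddMonoidAlgebra.single α (1 : F) = AddMonoidAlgebra.single 0 c := by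
    apply hm.ev_injective
    rw [hm.ev_single, hm.ev_single, map_one, one_mul, hm.zero, mul_one, hc]
  by_contra h0
  have h2 := congrArg (fun x => x.coeff α) h1
  simp only [AddMonoidAlgebra.coeff_single, Finsupp.single_apply] at h2
  rw [if_pos trivial, if_neg (Ne.symm h0)] at h2
  exact one_ne_zero h2

/-- No exponential is a unit of a polynomial ring. -/
lemma not_unit {s : M} (hs : Transcendental F s) {α : G} (h1 : m α ∈ Algebra.adjoin F {s})
    (h2 : (m α)⁻¹ ∈ Algebra.adjoin F {s}) : α = 0 := by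
  rw [Algebra.adjoin_singleton_eq_range_aeval] at h1 h2
  obtain ⟨P, hP⟩ := h1
  obtain ⟨Q, hQ⟩ := h2
  change aeval s P = _ at hP
  change aeval s Q = _ at hQ
  have h3 : P * Q = 1 := by
    apply transcendental_iff_injective.1 hs
    rw [map_mul, map_one, hP, hQ, mul_inv_cancel₀ (hm.ne_zero α)]
  have h4 : IsUnit P := IsUnit.of_mul_eq_one _ h3
  obtain ⟨c, -, hc⟩ := Polynomial.isUnit_iff.1 h4
  apply eq_zero_of_mem_range hm
  refine ⟨c, ?_⟩
  rw [← hP, ← hc, aeval_C]

lemma zsmul_mem {α : G} (h : m α ∈ N) (k : ℤ) : m (k • α) ∈ N := by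
  rcases k with k | k
  · change m ((k : ℤ) • α) ∈ N
    rw [natCast_zsmul, hm.nsmul]
    exact _root_.pow_mem h k
  · rw [negSucc_zsmul, hm.neg, hm.nsmul]
    exact N.inv_mem (_root_.pow_mem h _)

variable (hcl : ∀ z : M, IsAlgebraic N z → z ∈ N)

include hcl

lemma mem_of_nsmul_mem {β : G} {D : ℕ} (hD : D ≠ 0) (h : m (D • β) ∈ N) : m β ∈ N := by
  apply hcl
  rw [hm.nsmul] at h
  refine ⟨X ^ D - C ⟨m β ^ D, h⟩, ?_, ?_⟩
  · exact (monic_X_pow_sub_C _ hD).ne_zero
  · rw [map_sub, map_pow, aeval_X, aeval_C]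
    change m β ^ D - m β ^ D = 0
    exact sub_self _

variable [Module ℚ G]

lemma rat_smul_mem {α : G} (h : m α ∈ N) (q : ℚ) : m (q • α) ∈ N := by
  apply mem_of_nsmul_mem hm N hcl (D := q.den) q.den_nz
  have h1 : q.den • (q • α) = q.num • α := by
    rw [← Nat.cast_smul_eq_nsmul ℚ, smul_smul, ← Int.cast_smul_eq_zsmul ℚ]
    congr 1
    rw [mul_comm]
    exact Rat.mul_den_eq_num q
  rw [h1]
  exact zsmul_mem hm N h _

/-- **Exponential sums on a line.** -/
lemma mem_of_line {α : G} {x : AddMonoidAlgebra F G}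
    (hx : ∀ a, x.coeff a ≠ 0 → ∃ q : ℚ, a = q • α) (hN : hm.ev x ∈ N)
    (hF : hm.ev x ∉ (algebraMap F M).range) : m α ∈ N := by
  classical
  choose! q hq using hx
  set D := ∏ a ∈ x.coeff.support, (q a).den with hD
  have hD0 : D ≠ 0 := Finset.prod_ne_zero_iff.2 (fun a _ => (q a).den_nz)
  set β := (D : ℚ)⁻¹ • α with hβ
  have hDβ : D • β = α := by
    rw [← Nat.cast_smul_eq_nsmul ℚ, hβ, smul_smul, mul_inv_cancel₀ (by exact_mod_cast hD0),
      one_smul]
  have hk : ∀ a, x.coeff a ≠ 0 → ∃ k : ℤ, a = k • β := by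
    intro a ha
    obtain ⟨c, hc⟩ := Finset.dvd_prod_of_mem (fun a => (q a).den) (Finsupp.mem_support_iff.2 ha)
    refine ⟨(q a).num * c, ?_⟩
    rw [hβ, ← Int.cast_smul_eq_zsmul ℚ, smul_smul]
    conv_lhs => rw [hq a ha]
    congr 1
    have h1 : (D : ℚ) = (q a).den * c := by rw [hD, hc]; push_cast; rfl
    have h2 : (D : ℚ) ≠ 0 := by exact_mod_cast hD0
    rw [eq_mul_inv_iff_mul_eq₀ h2, h1, ← mul_assoc, Rat.mul_den_eq_num]
    push_cast
    rfl
  choose! k hk using hk
  obtain ⟨n, hn⟩ : ∃ n : ℕ, ∀ a ∈ x.coeff.support, 0 ≤ k a + (n : ℤ) := by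
    refine ⟨∑ a ∈ x.coeff.support, (k a).natAbs, fun a ha => ?_⟩
    have h1 : (k a).natAbs ≤ ∑ a ∈ x.coeff.support, (k a).natAbs :=
      Finset.single_le_sum (f := fun a => (k a).natAbs) (fun _ _ => Nat.zero_le _) ha
    omega
  have hy : ∀ a ∈ x.coeff.support, m a * m β ^ n = m β ^ (k a + (n : ℤ)).toNat := by
    intro a ha
    rw [← hm.nsmul, ← hm.nsmul, ← hm.add]
    congr 1
    conv_lhs => rw [hk a (Finsupp.mem_support_iff.1 ha)]
    rw [← natCast_zsmul β n, ← natCast_zsmul β (k a + (n : ℤ)).toNat, ← add_smul]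
    congr 1
    have := hn a ha
    omega
  rw [← hDβ, hm.nsmul]
  apply _root_.pow_mem
  apply hcl
  set z : N := ⟨hm.ev x, hN⟩ with hz
  set R : N[X] := (∑ a ∈ x.coeff.support, C (algebraMap F N (x.coeff a)) *
    X ^ (k a + (n : ℤ)).toNat) - C z * X ^ n with hR
  refine ⟨R, ?_, ?_⟩
  · intro h0
    apply hF
    have h1 : R.coeff n = 0 := by rw [h0, coeff_zero]
    rw [hR, coeff_sub, finsetSum_coeff, coeff_C_mul, coeff_X_pow_self, mul_one] at h1
    refine ⟨∑ a ∈ x.coeff.support, if (k a + (n : ℤ)).toNat = n then x.coeff a else 0, ?_⟩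
    have h2 : z = ∑ a ∈ x.coeff.support,
        (C (algebraMap F N (x.coeff a)) * X ^ (k a + (n : ℤ)).toNat).coeff n :=
      (sub_eq_zero.1 h1).symm
    have h3 : hm.ev x = algebraMap N M z := rfl
    rw [h3, h2, map_sum, map_sum]
    apply Finset.sum_congr rfl
    intro a _
    rw [coeff_C_mul, coeff_X_pow]
    by_cases h : (k a + (n : ℤ)).toNat = n
    · rw [if_pos h, if_pos h.symm, mul_one]
      rfl
    · rw [if_neg h, if_neg (Ne.symm h), mul_zero, map_zero, map_zero]
  · rw [hR, map_sub, map_sum, map_mul, aeval_C, map_pow, aeval_X]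
    have h3 : algebraMap N M z = hm.ev x := rfl
    rw [h3, hm.ev_apply, Finsupp.linearCombination_apply, Finsupp.sum, Finset.sum_mul, sub_eq_zero]
    apply Finset.sum_congr rfl
    intro a ha
    rw [map_mul, aeval_C, map_pow, aeval_X, smul_mul_assoc, hy a ha, Algebra.smul_def]
    rfl

end Pool.Agent.TH711.ES
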