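import Pool.Agent.TH711.ES.Main2

/-!
# The trichotomy
-/

open IntermediateField Polynomial

namespace Pool.Agent.TH711.ES

variable {F M G : Type*} [Field F] [Field M] [Algebra F M] [AddCommGroup G]

variable {m : G → M} (hm : IsExp F m) (N : IntermediateField F M)

lemma eq_zero_of_ev_mem {x : AddMonoidAlgebra F G} (h : hm.ev x ∈ (algebraMap F M).range) {a : G}
    (ha : x.coeff a ≠ 0) : a = 0 := by
  classical
  obtain ⟨c, hc⟩ := h
  have h1 : x = AddMonoidAlgebra.single 0 c := by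
    apply hm.ev_injective
    rw [hm.ev_single, hm.zero, mul_one, hc]
  rw [h1, AddMonoidAlgebra.coeff_single, Finsupp.single_apply] at ha
  by_contra h0
  rw [if_neg (Ne.symm h0)] at ha
  exact ha rfl

lemma ev_mem_range_of {x : AddMonoidAlgebra F G} (h : ∀ a, x.coeff a ≠ 0 → a = 0) :
    hm.ev x ∈ (algebraMap F M).range := by
  refine ⟨x.coeff 0, ?_⟩
  have h1 : x = AddMonoidAlgebra.single 0 (x.coeff 0) := by
    classical
    ext a
    rw [AddMonoidAlgebra.coeff_single, Finsupp.single_apply]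
    by_cases h0 : 0 = a
    · rw [if_pos h0, h0]
    · rw [if_neg h0]
      by_contra h2
      exact h0 (h a h2).symm
  conv_rhs => rw [h1]
  rw [hm.ev_single, hm.zero, mul_one]

variable [CharZero F] [IsAlgClosed F] [Module ℚ G]

/-- If one exponential lies in the field, all sums there are on its line. -/
theorem case_line
    (htr : ∀ f ∈ N, f ∉ (algebraMap F M).range → ∀ z ∈ N, IsAlgebraic (Algebra.adjoin F {f}) z)
    {α : G} (hα : α ≠ 0) (hαN : m α ∈ N) {x : AddMonoidAlgebra F G} (hx : hm.ev x ∈ N) :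
    ∀ a, x.coeff a ≠ 0 → ∃ q : ℚ, a = q • α := by
  classical
  intro a ha
  by_cases hF : hm.ev x ∈ (algebraMap F M).range
  · exact ⟨0, by rw [eq_zero_of_ev_mem hm hF ha, zero_smul]⟩
  obtain ⟨n, γ, hγ, hS⟩ := exists_lattice (insert α x.coeff.support)
  obtain ⟨α', hα'⟩ := hS α (Finset.mem_insert_self _ _)
  have hxr : hm.ev x ∈ (hm.comp γ hγ).ring :=
    hm.mem_ring_comp γ hγ (fun b hb => hS b (Finset.mem_insert_of_mem hb))
  have hmα : m α ∈ (hm.comp γ hγ).ring := by
    have := (hm.comp γ hγ).mem_ring α'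
    rwa [hα'] at this
  have hmα' : (m α)⁻¹ ∈ (hm.comp γ hγ).ring := by
    have := (hm.comp γ hγ).mem_ring (-α')
    rwa [map_neg, hα', hm.neg] at this
  have hA : m α ∈ (hm.comp γ hγ).ring ⊓ N.toSubalgebra := ⟨hmα, hαN⟩
  have hA' : (m α)⁻¹ ∈ (hm.comp γ hγ).ring ⊓ N.toSubalgebra := ⟨hmα', N.inv_mem hαN⟩
  have hAx : hm.ev x ∈ (hm.comp γ hγ).ring ⊓ N.toSubalgebra := ⟨hxr, hx⟩
  rcases lattice_structure hm N hγ htr hxr hx hF with ⟨s, -, hs, h⟩ | ⟨β, -, -, h⟩
  · rw [h] at hA hA'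
    exact absurd (not_unit hm hs hA hA') hα
  · rw [h] at hA hAx
    obtain ⟨y, hy, hy'⟩ := laurent_mem hm hAx
    obtain ⟨y₁, hy₁, hy₁'⟩ := laurent_mem hm hA
    have e1 : y = x := hm.ev_injective hy
    have e2 : y₁ = AddMonoidAlgebra.single α 1 := by
      apply hm.ev_injective
      rw [hy₁, hm.ev_single, map_one, one_mul]
    obtain ⟨l, hl⟩ := hy' a (by rw [e1]; exact ha)
    obtain ⟨k, hk⟩ := hy₁' α (by
      rw [e2, AddMonoidAlgebra.coeff_single, Finsupp.single_eq_same]; exact one_ne_zero)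
    have hk0 : (k : ℚ) ≠ 0 := by
      intro h0
      apply hα
      rw [hk, ← Int.cast_smul_eq_zsmul ℚ, h0, zero_smul]
    refine ⟨(l : ℚ) / k, ?_⟩
    rw [hl, hk, ← Int.cast_smul_eq_zsmul ℚ l, ← Int.cast_smul_eq_zsmul ℚ k, smul_smul,
      div_mul_cancel₀ _ hk0]

variable (hcl : ∀ z : M, IsAlgebraic N z → z ∈ N)

omit [CharZero F] [IsAlgClosed F] in
include hcl in
/-- If no exponential lies in the field, a sum there has two independent exponents. -/
theorem exists_indep (hno : ∀ α, m α ∈ N → α = 0) {x : AddMonoidAlgebra F G} (hx : hm.ev x ∈ N)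
    (hF : hm.ev x ∉ (algebraMap F M).range) :
    ∃ c₁ c₂, x.coeff c₁ ≠ 0 ∧ x.coeff c₂ ≠ 0 ∧ LinearIndependent ℚ ![c₁, c₂] := by
  obtain ⟨α, hα, hα0⟩ : ∃ α, x.coeff α ≠ 0 ∧ α ≠ 0 := by
    by_contra hn
    push Not at hn
    exact hF (ev_mem_range_of hm hn)
  by_contra hn
  push Not at hn
  apply hα0
  apply hno
  apply mem_of_line hm N hcl (x := x) _ hx hF
  intro a ha
  have h1 := hn α a hα ha
  rw [LinearIndependent.pair_iff' hα0] at h1
  push Not at h1
  obtain ⟨q, hq⟩ := h1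
  exact ⟨q, hq.symm⟩

include hcl in
/-- **The polynomial case.** -/
theorem case_poly
    (htr : ∀ f ∈ N, f ∉ (algebraMap F M).range → ∀ z ∈ N, IsAlgebraic (Algebra.adjoin F {f}) z)
    (hno : ∀ α, m α ∈ N → α = 0) {x : AddMonoidAlgebra F G} (hx : hm.ev x ∈ N)
    (hF : hm.ev x ∉ (algebraMap F M).range) :
    ∃ g : AddMonoidAlgebra F G, hm.ev g ∈ N ∧ Transcendental F (hm.ev g) ∧
      hm.ring ⊓ N.toSubalgebra = Algebra.adjoin F {hm.ev g} := by
  classical
  obtain ⟨c₁, c₂, hc₁, hc₂, hli⟩ := exists_indep hm N hcl hno hx hF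
  set S : Set ℕ := {d | ∃ g, hm.ev g ∈ N ∧ ∃ P : F[X], P.natDegree = d ∧
    aeval (hm.ev g) P = hm.ev x} with hS
  have hSne : S.Nonempty := ⟨1, x, hx, X, natDegree_X, aeval_X _⟩
  have hSb : BddAbove S := by
    refine ⟨x.coeff.support.card, ?_⟩
    rintro d ⟨g, -, P, rfl, hP⟩
    have h1 : x = aeval g P := by
      apply hm.ev_injective
      rw [← hP, aeval_algHom_apply]
    exact (natDegree_lt_card_of_li h1 hc₁ hc₂ hli).le
  obtain ⟨g, hg, P, hPd, hP⟩ := Nat.sSup_mem hSne hSb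
  have hd1 : 1 ≤ sSup S := le_csSup hSb ⟨x, hx, X, natDegree_X, aeval_X _⟩
  -- the main step
  have key : ∀ z, hm.ev z ∈ N → ∃ s, hm.ev s ∈ N ∧ Transcendental F (hm.ev s) ∧
      ∃ a b : F, a ≠ 0 ∧ hm.ev g = algebraMap F M a * hm.ev s + algebraMap F M b ∧
      hm.ev z ∈ Algebra.adjoin F {hm.ev s} := by
    intro z hz
    obtain ⟨n, γ, hγ, hl⟩ := exists_lattice (x.coeff.support ∪ g.coeff.support ∪ z.coeff.support)
    have hxr : hm.ev x ∈ (hm.comp γ hγ).ring := hm.mem_ring_comp γ hγ (fun b hb => hl b (by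
      simp only [Finset.mem_union]; exact Or.inl (Or.inl hb)))
    have hgr : hm.ev g ∈ (hm.comp γ hγ).ring := hm.mem_ring_comp γ hγ (fun b hb => hl b (by
      simp only [Finset.mem_union]; exact Or.inl (Or.inr hb)))
    have hzr : hm.ev z ∈ (hm.comp γ hγ).ring := hm.mem_ring_comp γ hγ (fun b hb => hl b (by
      simp only [Finset.mem_union]; exact Or.inr hb))
    rcases lattice_structure hm N hγ htr hxr hx hF with ⟨s, hsA, hs, h⟩ | ⟨β, hβ0, hβ, h⟩
    · obtain ⟨s', hs'⟩ := hm.ring_comp_le γ hγ hsA.1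
      change hm.ev s' = s at hs'
      have hgA : hm.ev g ∈ (hm.comp γ hγ).ring ⊓ N.toSubalgebra := ⟨hgr, hg⟩
      have hzA : hm.ev z ∈ (hm.comp γ hγ).ring ⊓ N.toSubalgebra := ⟨hzr, hz⟩
      rw [h] at hgA hzA
      rw [Algebra.adjoin_singleton_eq_range_aeval] at hgA
      obtain ⟨T, hT⟩ := hgA
      change aeval s T = _ at hT
      have hcomp : aeval s (P.comp T) = hm.ev x := by
        rw [aeval_comp, hT, hP]
      have h1 : (P.comp T).natDegree ≤ sSup S :=
        le_csSup hSb ⟨s', by rw [hs']; exact hsA.2, P.comp T, rfl, by rw [hs', hcomp]⟩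
      rw [natDegree_comp, hPd] at h1
      have h2 : T.natDegree ≤ 1 := by
        by_contra h3
        push Not at h3
        have : sSup S * 2 ≤ sSup S * T.natDegree := Nat.mul_le_mul_left _ h3
        omega
      obtain ⟨a, b, hab⟩ := Polynomial.exists_eq_X_add_C_of_natDegree_le_one h2
      have ha0 : a ≠ 0 := by
        rintro rfl
        apply hF
        rw [hab, C_0, zero_mul, zero_add, aeval_C] at hT
        refine ⟨P.eval b, ?_⟩
        rw [← hP, ← hT, aeval_algebraMap_apply]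
        simp
      refine ⟨s', by rw [hs']; exact hsA.2, by rw [hs']; exact hs, a, b, ha0, ?_, by
        rw [hs']; exact hzA⟩
      rw [← hT, hab, map_add, map_mul, aeval_C, aeval_X, aeval_C, hs']
    · exfalso
      exact hβ0 (hγ (by rw [hno _ hβ, map_zero]))
  refine ⟨g, hg, ?_, ?_⟩
  · obtain ⟨s, -, hs, a, b, ha, hab, -⟩ := key x hx
    intro halg
    apply hs
    have h1 : hm.ev s = (hm.ev g - algebraMap F M b) * algebraMap F M a⁻¹ := by
      rw [hab, add_sub_cancel_right, mul_comm (algebraMap F M a), mul_assoc, ← map_mul,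
        mul_inv_cancel₀ ha, map_one, mul_one]
    rw [h1]
    exact (halg.sub (isAlgebraic_algebraMap _)).mul (isAlgebraic_algebraMap _)
  · apply le_antisymm
    · rintro _ ⟨⟨z, rfl⟩, hz⟩
      change hm.ev z ∈ _
      obtain ⟨s, -, -, a, b, ha, hab, hzs⟩ := key z hz
      have h1 : hm.ev s = (hm.ev g - algebraMap F M b) * algebraMap F M a⁻¹ := by
        rw [hab, add_sub_cancel_right, mul_comm (algebraMap F M a), mul_assoc, ← map_mul,
          mul_inv_cancel₀ ha, map_one, mul_one]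
      have h2 : hm.ev s ∈ Algebra.adjoin F {hm.ev g} := by
        rw [h1]
        exact Subalgebra.mul_mem _ (Subalgebra.sub_mem _ (Algebra.subset_adjoin rfl)
          (Subalgebra.algebraMap_mem _ _)) (Subalgebra.algebraMap_mem _ _)
      exact Algebra.adjoin_le (by rintro _ rfl; exact h2) hzs
    · apply Algebra.adjoin_le
      rintro _ rfl
      exact ⟨⟨g, rfl⟩, hg⟩

include hcl in
/-- **The degree bound.** -/
theorem degree_bound (hno : ∀ α, m α ∈ N → α = 0) {g : AddMonoidAlgebra F G} {P : F[X]}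
    {x : AddMonoidAlgebra F G} (hx : hm.ev x ∈ N) (hF : hm.ev x ∉ (algebraMap F M).range)
    (hP : aeval (hm.ev g) P = hm.ev x) : P.natDegree < x.coeff.support.card := by
  obtain ⟨c₁, c₂, hc₁, hc₂, hli⟩ := exists_indep hm N hcl hno hx hF
  have h1 : x = aeval g P := by
    apply hm.ev_injective
    rw [← hP, aeval_algHom_apply]
  exact natDegree_lt_card_of_li h1 hc₁ hc₂ hli

end Pool.Agent.TH711.ES
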