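import Pool.Agent.TH711.ES.Base

/-!
# The algebra of exponential sums is integrally closed
-/

open IntermediateField

namespace Pool.Agent.TH711.ES

/-- A finite set of elements of a vector space over `ℚ` is contained in a lattice. -/
lemma exists_lattice {G : Type*} [AddCommGroup G] [Module ℚ G] (S : Finset G) :
    ∃ (n : ℕ) (γ : (Fin n → ℤ) →+ G), Function.Injective γ ∧ ∀ s ∈ S, s ∈ Set.range γ := by
  classical
  set Λ : Submodule ℤ G := Submodule.span ℤ (S : Set G) with hΛ
  have h0 : IsAddTorsionFree G := IsAddTorsionFree.of_module_rat G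
  have h1 : Module.Finite ℤ Λ := Module.Finite.iff_fg.2 ⟨S, rfl⟩
  have h3 : Module.Free ℤ Λ := inferInstance
  set b := Module.finBasis ℤ Λ with hb
  refine ⟨_, (Λ.subtype ∘ₗ b.equivFun.symm.toLinearMap).toAddMonoidHom, ?_, ?_⟩
  · intro x y hxy
    have h4 : ((b.equivFun.symm x : Λ) : G) = (b.equivFun.symm y : Λ) := hxy
    exact b.equivFun.symm.injective (Subtype.ext h4)
  · intro s hs
    have hsΛ : s ∈ Λ := Submodule.subset_span hs
    refine ⟨b.equivFun ⟨s, hsΛ⟩, ?_⟩
    change ((b.equivFun.symm (b.equivFun ⟨s, hsΛ⟩) : Λ) : G) = s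
    rw [LinearEquiv.symm_apply_apply]

lemma exists_bound {n : ℕ} (T : Finset (Fin n → ℤ)) :
    ∃ N : ℕ, ∀ k ∈ T, ∀ j, 0 ≤ (N : ℤ) + k j := by
  refine ⟨∑ k ∈ T, ∑ j, (k j).natAbs, fun k hk j => ?_⟩
  have h1 : (k j).natAbs ≤ ∑ k ∈ T, ∑ j, (k j).natAbs :=
    (Finset.single_le_sum (f := fun j => (k j).natAbs) (fun _ _ => Nat.zero_le _)
      (Finset.mem_univ j)).trans
    (Finset.single_le_sum (f := fun k : Fin n → ℤ => ∑ j, (k j).natAbs)
      (fun _ _ => Nat.zero_le _) hk)
  omega

variable {F M : Type*} [Field F] [Field M] [Algebra F M]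

section Lattice

variable {n : ℕ} {m : (Fin n → ℤ) → M} (hm : IsExp F m)

/-- The exponents with natural entries. -/
def kap {n : ℕ} (d : Fin n →₀ ℕ) : Fin n → ℤ := fun j => (d j : ℤ)

lemma kap_inj {n : ℕ} : Function.Injective (kap : (Fin n →₀ ℕ) → Fin n → ℤ) := by
  intro d e h
  ext j
  have h1 : (d j : ℤ) = (e j : ℤ) := congrFun h j
  exact_mod_cast h1

/-- The homomorphism from the polynomial ring. -/
noncomputable def psi (m : (Fin n → ℤ) → M) : MvPolynomial (Fin n) F →ₐ[F] M :=
  MvPolynomial.aeval (fun j => m (Pi.single j 1))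

include hm

lemma map_sum' {ι : Type*} (s : Finset ι) (f : ι → Fin n → ℤ) :
    m (∑ i ∈ s, f i) = ∏ i ∈ s, m (f i) := by
  classical
  induction s using Finset.induction_on with
  | empty => rw [Finset.sum_empty, Finset.prod_empty, hm.zero]
  | insert a s ha ih => rw [Finset.sum_insert ha, Finset.prod_insert ha, hm.add, ih]

lemma prod_eq (d : Fin n →₀ ℕ) : ∏ j, m (Pi.single j 1) ^ d j = m (kap d) := by
  have h1 : kap d = ∑ j, d j • (Pi.single j 1 : Fin n → ℤ) := by
    ext i
    rw [Finset.sum_apply, Finset.sum_eq_single i]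
    · simp [kap]
    · intro j _ hj
      simp [Pi.single_eq_of_ne (Ne.symm hj)]
    · intro h; exact absurd (Finset.mem_univ i) h
  rw [h1, map_sum' hm]
  exact Finset.prod_congr rfl (fun j _ => (hm.nsmul _ _).symm)

lemma psi_apply (p : MvPolynomial (Fin n) F) :
    psi m p = ∑ d ∈ p.support, p.coeff d • m (kap d) := by
  rw [psi, MvPolynomial.aeval_def, MvPolynomial.eval₂_eq']
  apply Finset.sum_congr rfl
  intro d _
  rw [prod_eq hm, Algebra.smul_def]

lemma psi_injective : Function.Injective (psi m : MvPolynomial (Fin n) F →ₐ[F] M) := by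
  rw [injective_iff_map_eq_zero]
  intro p hp
  rw [psi_apply hm] at hp
  have h1 := (linearIndependent_iff'.1 (hm.li.comp kap kap_inj)) p.support
    (fun d => p.coeff d) hp
  ext d
  rw [MvPolynomial.coeff_zero]
  by_cases hd : d ∈ p.support
  · exact h1 d hd
  · exact MvPolynomial.notMem_support_iff.1 hd

lemma mem_psi_range {N : ℕ} {k : Fin n → ℤ} (hk : ∀ j, 0 ≤ (N : ℤ) + k j) :
    m (fun _ => (N : ℤ)) * m k ∈ (psi m : MvPolynomial (Fin n) F →ₐ[F] M).range := by
  rw [← hm.add]
  refine ⟨∏ j, MvPolynomial.X j ^ ((N : ℤ) + k j).toNat, ?_⟩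
  change psi m _ = _
  rw [map_prod]
  have h1 : ∀ j, psi m (MvPolynomial.X j ^ ((N : ℤ) + k j).toNat : MvPolynomial (Fin n) F) =
      m (Pi.single j 1) ^ (Finsupp.equivFunOnFinite.symm (fun j => ((N : ℤ) + k j).toNat)) j := by
    intro j
    rw [map_pow, psi, MvPolynomial.aeval_X]
    rfl
  rw [Finset.prod_congr rfl (fun j _ => h1 j), prod_eq hm]
  congr 1
  ext j
  rw [kap]
  change ((((N : ℤ) + k j).toNat : ℕ) : ℤ) = N + k j
  exact Int.toNat_of_nonneg (hk j)

lemma mu_mem_psi_range (N : ℕ) :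
    m (fun _ => (N : ℤ)) ∈ (psi m : MvPolynomial (Fin n) F →ₐ[F] M).range := by
  have h := mem_psi_range hm (N := N) (k := 0) (by intro j; simp)
  rwa [hm.zero, mul_one] at h

lemma mul_ev_mem {N : ℕ} {x : AddMonoidAlgebra F (Fin n → ℤ)}
    (hx : ∀ k ∈ x.coeff.support, ∀ j, 0 ≤ (N : ℤ) + k j) :
    m (fun _ => (N : ℤ)) * hm.ev x ∈ (psi m : MvPolynomial (Fin n) F →ₐ[F] M).range := by
  rw [hm.ev_apply, Finsupp.linearCombination_apply, Finsupp.sum, Finset.mul_sum]
  apply Subalgebra.sum_mem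
  intro k hk
  rw [mul_smul_comm]
  exact Subalgebra.smul_mem _ (mem_psi_range hm (hx k hk)) _

lemma psi_range_le : (psi m : MvPolynomial (Fin n) F →ₐ[F] M).range ≤ hm.ring := by
  rintro _ ⟨p, rfl⟩
  change psi m p ∈ _
  rw [psi_apply hm]
  apply Subalgebra.sum_mem
  intro d _
  exact Subalgebra.smul_mem _ (hm.mem_ring _) _

/-- **The algebra of a lattice is integrally closed.** -/
theorem normal_lat {w a b : M} (ha : a ∈ hm.ring) (hb : b ∈ hm.ring) (hb0 : b ≠ 0)
    (hw : w * b = a) (hint : IsIntegral hm.ring w) : w ∈ hm.ring := by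
  classical
  obtain ⟨H, hH, hHw⟩ := hint
  obtain ⟨x, hx⟩ := ha
  obtain ⟨y, hy⟩ := hb
  change hm.ev x = a at hx
  change hm.ev y = b at hy
  have hc : ∀ i, ∃ c, hm.ev c = (H.coeff i : M) := fun i => (H.coeff i).2
  choose c hc using hc
  obtain ⟨N, hN⟩ := exists_bound (x.coeff.support ∪ y.coeff.support ∪
    (Finset.range H.natDegree).biUnion (fun i => (c i).coeff.support))
  set μ := m (fun _ => (N : ℤ)) with hμ
  have hμ0 : μ ≠ 0 := hm.ne_zero _
  have hμr : μ ∈ (psi m : MvPolynomial (Fin n) F →ₐ[F] M).range := mu_mem_psi_range hm N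
  have hxr : μ * a ∈ (psi m : MvPolynomial (Fin n) F →ₐ[F] M).range := by
    rw [← hx]
    exact mul_ev_mem hm (fun k hk => hN k (by simp only [Finset.mem_union]; exact Or.inl (Or.inl hk)))
  have hyr : μ * b ∈ (psi m : MvPolynomial (Fin n) F →ₐ[F] M).range := by
    rw [← hy]
    exact mul_ev_mem hm (fun k hk => hN k (by simp only [Finset.mem_union]; exact Or.inl (Or.inr hk)))
  have hcr : ∀ i < H.natDegree, μ * (H.coeff i : M) ∈
      (psi m : MvPolynomial (Fin n) F →ₐ[F] M).range := by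
    intro i hi
    rw [← hc i]
    refine mul_ev_mem hm (fun k hk => hN k ?_)
    simp only [Finset.mem_union, Finset.mem_biUnion, Finset.mem_range]
    exact Or.inr ⟨i, hi, hk⟩
  set H' := H.map (algebraMap hm.ring M) with hH'
  have hH'm : H'.Monic := hH.map _
  have hH'd : H'.natDegree = H.natDegree := hH.natDegree_map _
  set p := H'.scaleRoots μ with hp
  have hpm : p.Monic := (Polynomial.monic_scaleRoots_iff μ).2 hH'm
  have hlift : p ∈ Polynomial.lifts (psi m : MvPolynomial (Fin n) F →ₐ[F] M).toRingHom := by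
    rw [Polynomial.lifts_iff_coeff_lifts]
    intro i
    rw [hp, Polynomial.coeff_scaleRoots, hH'd]
    rcases lt_trichotomy i H.natDegree with hi | hi | hi
    · have h1 : H'.coeff i * μ ^ (H.natDegree - i) =
          (μ * (H.coeff i : M)) * μ ^ (H.natDegree - i - 1) := by
        rw [hH', Polynomial.coeff_map]
        have h2 : H.natDegree - i = H.natDegree - i - 1 + 1 := by omega
        conv_lhs => rw [h2, pow_succ]
        change (H.coeff i : M) * _ = _
        ring
      rw [h1]
      exact Subalgebra.mul_mem _ (hcr i hi) (Subalgebra.pow_mem _ hμr _)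
    · rw [hi, Nat.sub_self, pow_zero, mul_one]
      have h1 : H'.coeff H.natDegree = 1 := by rw [← hH'd]; exact hH'm.coeff_natDegree
      rw [h1]
      exact ⟨1, map_one _⟩
    · have h1 : H'.coeff i = 0 := Polynomial.coeff_eq_zero_of_natDegree_lt (by omega)
      rw [h1, zero_mul]
      exact ⟨0, map_zero _⟩
  obtain ⟨q, hq, -, hqm⟩ := Polynomial.lifts_and_natDegree_eq_and_monic hlift hpm
  have hroot : Polynomial.eval₂ (psi m : MvPolynomial (Fin n) F →ₐ[F] M).toRingHom (μ * w) q = 0 := by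
    rw [← Polynomial.eval_map, hq, hp]
    have h1 : Polynomial.aeval w H' = 0 := by
      rw [Polynomial.aeval_def, hH', Polynomial.eval₂_map]
      exact hHw
    have h2 := Polynomial.scaleRoots_aeval_eq_zero (r := μ) h1
    rw [Polynomial.aeval_def, Algebra.algebraMap_self, Polynomial.eval₂_id] at h2
    simpa using h2
  have hinj := psi_injective (F := F) hm
  set j : FractionRing (MvPolynomial (Fin n) F) →+* M :=
    IsFractionRing.lift (g := (psi m : MvPolynomial (Fin n) F →ₐ[F] M).toRingHom) hinj with hj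
  have hjc : ∀ s, j (algebraMap _ _ s) = psi m s := fun s => IsFractionRing.lift_algebraMap hinj s
  obtain ⟨A, hA⟩ := hxr
  obtain ⟨B, hB⟩ := hyr
  obtain ⟨T, hT⟩ := hμr
  change psi m A = μ * a at hA
  change psi m B = μ * b at hB
  change psi m T = μ at hT
  set x₀ : FractionRing (MvPolynomial (Fin n) F) := algebraMap _ _ (T * A) / algebraMap _ _ B
    with hx₀
  have hjx : j x₀ = μ * w := by
    rw [hx₀, map_div₀, hjc, hjc, map_mul, hA, hB, hT, ← hw]
    field_simp
  have hxint : IsIntegral (MvPolynomial (Fin n) F) x₀ := by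
    refine ⟨q, hqm, ?_⟩
    apply j.injective
    rw [map_zero, Polynomial.hom_eval₂, hjx, ← hroot]
    congr 1
    ext s
    · exact hjc _
    · exact hjc _
  obtain ⟨s, hs⟩ := IsIntegrallyClosed.isIntegral_iff.1 hxint
  have h1 : μ * w = psi m s := by rw [← hjx, ← hs, hjc]
  have h2 : w = m (-(fun _ => (N : ℤ))) * psi m s := by
    rw [← h1, hm.neg, ← hμ, inv_mul_cancel_left₀ hμ0]
  rw [h2]
  exact Subalgebra.mul_mem _ (hm.mem_ring _) (psi_range_le hm ⟨s, rfl⟩)

end Lattice

/-- **The algebra of exponential sums is integrally closed.** -/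
theorem normal {G : Type*} [AddCommGroup G] [Module ℚ G] {m : G → M} (hm : IsExp F m) {w a b : M}
    (ha : a ∈ hm.ring) (hb : b ∈ hm.ring) (hb0 : b ≠ 0) (hw : w * b = a)
    (hint : IsIntegral hm.ring w) : w ∈ hm.ring := by
  classical
  obtain ⟨H, hH, hHw⟩ := hint
  obtain ⟨x, hx⟩ := ha
  obtain ⟨y, hy⟩ := hb
  change hm.ev x = a at hx
  change hm.ev y = b at hy
  have hc : ∀ i, ∃ c, hm.ev c = (H.coeff i : M) := fun i => (H.coeff i).2
  choose c hc using hc
  obtain ⟨n, γ, hγ, hS⟩ := exists_lattice (x.coeff.support ∪ y.coeff.support ∪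
    (Finset.range (H.natDegree + 1)).biUnion (fun i => (c i).coeff.support))
  apply hm.ring_comp_le γ hγ
  refine normal_lat (hm.comp γ hγ) (a := a) (b := b) ?_ ?_ hb0 hw ?_
  · rw [← hx]
    exact hm.mem_ring_comp γ hγ (fun k hk => hS k (by
      simp only [Finset.mem_union]; exact Or.inl (Or.inl hk)))
  · rw [← hy]
    exact hm.mem_ring_comp γ hγ (fun k hk => hS k (by
      simp only [Finset.mem_union]; exact Or.inl (Or.inr hk)))
  · have hlift : H.map (algebraMap hm.ring M) ∈
        Polynomial.lifts (algebraMap (hm.comp γ hγ).ring M) := by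
      rw [Polynomial.lifts_iff_coeff_lifts]
      intro i
      rw [Polynomial.coeff_map]
      by_cases hi : i ≤ H.natDegree
      · refine ⟨⟨(H.coeff i : M), ?_⟩, rfl⟩
        rw [← hc i]
        refine hm.mem_ring_comp γ hγ (fun k hk => hS k ?_)
        simp only [Finset.mem_union, Finset.mem_biUnion, Finset.mem_range]
        exact Or.inr ⟨i, by omega, hk⟩
      · rw [Polynomial.coeff_eq_zero_of_natDegree_lt (by omega), map_zero]
        exact ⟨0, map_zero _⟩
    obtain ⟨q, hq, -, hqm⟩ := Polynomial.lifts_and_natDegree_eq_and_monic hlift (hH.map _)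
    refine ⟨q, hqm, ?_⟩
    rw [← Polynomial.eval_map, hq, Polynomial.eval_map]
    exact hHw

end Pool.Agent.TH711.ES
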